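import Pool.Agent.R410.PW.Pts3

/-!
# The Weil bound for absolutely irreducible plane curves

For a polynomial `f ∈ F[x][y]` over a finite field `F`, monic in `y` and absolutely irreducible, the number
of solutions of `f = 0` in `F` is `q + O(√q)`, the implied constant depending only on bounds for the
degrees of `f` and of a nonzero element of `F[x]` in the ideal generated by `f` and `∂f/∂y`.
-/

set_option autoImplicit false
set_option linter.all false
set_option linter.overlappingInstances false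

open Module FF Pool.Agent.H525R3.FFp Pool.Agent.W132.AG Pool.Agent.W493.MX Pool.Agent.W343.BSD Polynomial
open IsDedekindDomain

namespace Pool.Agent.R410.PW

section
variable {F L k : Type} [Field F] [Finite F] [Field L] [Algebra F L] [Algebra (RatFunc F) L]
  [IsScalarTower F (RatFunc F) L] [FiniteDimensional (RatFunc F) L] [Algebra.IsSeparable (RatFunc F) L]
  [IsFF F L] [Field k] [IsAlgClosed k] [Algebra F k] [Algebra.IsAlgebraic F k] [Algebra F[X] L]
  [IsScalarTower F[X] (RatFunc F) L] [IsScalarTower F F[X] L]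

theorem bad_places {D : F[X]} (hD : D ≠ 0) {δ : ℕ} (hδ : D.natDegree ≤ δ) (W : Finset (Place F L))
    (hW : ∀ w ∈ W, ¬ Gd D w) : ∑ w ∈ W, w.deg ≤ finrank (RatFunc F) L + δ * finrank (RatFunc F) L := by
  classical
  set g := cEh F L D with hg
  have hg0 : g ≠ 0 := by
    rw [hg, ← map_zero (cEh F L)]
    exact fun h => hD (cEh_inj h)
  set E1 := polar (k := F) (cEh F L X) with hE1
  set E2 := polar (k := F) g⁻¹ with hE2
  have hsub : W ⊆ E1.support ∪ E2.support := by
    intro w hw
    rw [Finset.mem_union, Finsupp.mem_support_iff, Finsupp.mem_support_iff]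
    have h1 := hW w hw
    unfold Gd at h1
    by_cases hr : w.Reg (cEh F L X)
    · right
      have h2 : aeval (w.red (cEh F L X)) D = 0 := by
        by_contra h3
        exact h1 ⟨hr, h3⟩
      rw [← red_cEh hr, w.red_eq_zero_iff (reg_cEh hr D)] at h2
      have h3 := h2.resolve_left hg0
      rw [hE2, polar_apply, w.ord_inv, neg_neg, max_eq_left h3.le]
      exact h3.ne'
    · left
      unfold FF.Place.Reg at hr
      push Not at hr
      rw [hE1, polar_apply, max_eq_left (by omega)]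
      omega
  have h1 : ∑ w ∈ W, w.deg ≤ ∑ w ∈ E1.support, w.deg + ∑ w ∈ E2.support, w.deg := by
    refine (Finset.sum_le_sum_of_subset hsub).trans ?_
    rw [← Finset.sum_union_inter]
    exact Nat.le_add_right _ _
  have h2 := ddeg_support_le (D := E1) (polar_nonneg _)
  have h3 := ddeg_support_le (D := E2) (polar_nonneg _)
  have h4 : ddeg E1 = finrank (RatFunc F) L := ddeg_polar_X
  have h5 : ddeg E2 ≤ δ * finrank (RatFunc F) L := by
    rw [hE2, ddeg_polar_inv, ← h4, ← ddeg_nsmul]
    apply ddeg_mono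
    intro P
    rw [polar_apply, Finsupp.smul_apply, nsmul_eq_mul, hE1, polar_X_apply]
    have h6 := loc_cE (L := L) P hδ
    have h7 : -((δ : ℤ) * pX P) ≤ P.ord g := h6.resolve_left hg0
    have h8 := pX_nonneg P
    have h9 : (0 : ℤ) ≤ δ * pX P := by positivity
    rw [max_le_iff]
    exact ⟨by omega, h9⟩
  zify
  zify at h1
  rw [h4] at h2
  linarith

theorem Pt_finite {p N : ℕ} [Fact p.Prime] [CharP k p] (hN : N ≠ 0) (fk : k[X][X]) : (Pt fk (p ^ N)).Finite := by
  obtain ⟨A, -, hA⟩ := exists_fixed (k := k) p N hN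
  refine (Finset.finite_toSet (A ×ˢ A)).subset ?_
  rintro ⟨a, b⟩ ⟨h1, h2, -⟩
  rw [Finset.mem_coe, Finset.mem_product]
  exact ⟨(hA a).2 h1, (hA b).2 h2⟩

theorem bad_points {f : F[X][X]} (hf : f.Monic) {D : F[X]} (hD : D ≠ 0) {δ : ℕ} (hδ : D.natDegree ≤ δ)
    {p N : ℕ} [Fact p.Prime] [CharP k p] (hN : N ≠ 0) :
    (Pt (f.map (mapRingHom (algebraMap F k))) (p ^ N)).ncard ≤
      {z ∈ Pt (f.map (mapRingHom (algebraMap F k))) (p ^ N) | aeval z.1 D ≠ 0}.ncard + δ * f.natDegree := by
  classical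
  set fk := f.map (mapRingHom (algebraMap F k)) with hfk
  have hfkm : fk.Monic := hf.map _
  have hDk : D.map (algebraMap F k) ≠ 0 := (Polynomial.map_ne_zero_iff (algebraMap F k).injective).2 hD
  let Z := (D.map (algebraMap F k)).roots.toFinset
  let Bd : Finset (k × k) := (Z.sigma (fun c => Sf fk (p ^ N) c)).image (fun s => (s.1, s.2))
  have h1 : Pt fk (p ^ N) ⊆ {z ∈ Pt fk (p ^ N) | aeval z.1 D ≠ 0} ∪ ↑Bd := by
    rintro ⟨c, b⟩ h
    by_cases hc : aeval c D = 0
    · right
      rw [Finset.mem_coe, Finset.mem_image]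
      refine ⟨⟨c, b⟩, ?_, rfl⟩
      rw [Finset.mem_sigma, Multiset.mem_toFinset, mem_roots hDk, IsRoot.def, ← eval₂_eq_eval_map, ← aeval_def,
        mem_Sf hfkm]
      exact ⟨hc, h.2.1, h.2.2⟩
    · left
      exact ⟨h, hc⟩
  have hfin : {z ∈ Pt fk (p ^ N) | aeval z.1 D ≠ 0}.Finite := (Pt_finite hN fk).subset (fun z hz => hz.1)
  refine (Set.ncard_le_ncard h1 (hfin.union (Finset.finite_toSet _))).trans ((Set.ncard_union_le _ _).trans ?_)
  apply Nat.add_le_add_left
  rw [Set.ncard_coe_finset]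
  refine Finset.card_image_le.trans ?_
  rw [Finset.card_sigma]
  refine (Finset.sum_le_card_nsmul _ _ _ fun c _ => card_Sf_le hfkm _ c).trans ?_
  rw [smul_eq_mul, hfk, hf.natDegree_map]
  apply Nat.mul_le_mul_right
  refine (Multiset.toFinset_card_le _).trans ((card_roots' _).trans ?_)
  exact natDegree_map_le.trans hδ

theorem compare {f A B : F[X][X]} {D : F[X]} (hf : f.Monic) (hAB : A * f + B * derivative f = C D)
    (hD : D ≠ 0) {δ : ℕ} (hδ : D.natDegree ≤ δ) {y : L} (hy : (f.map (cEh F L)).eval y = 0)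
    (hmin : minpoly (RatFunc F) y = f.map (algebraMap F[X] (RatFunc F)))
    (hfin : finrank (RatFunc F) L = f.natDegree) {m : ℕ} (hm : 1 ≤ m) {p e : ℕ} [Fact p.Prime] [CharP k p]
    (he : 0 < e) (hq : Nat.card F = p ^ e) :
    (Pt (f.map (mapRingHom (algebraMap F k))) (Nat.card F ^ m)).ncard ≤
      NN (fun v : FF.Place F L => v.deg) (fun n => H107R3.ZT.places_finite n) m + δ * f.natDegree ∧
    NN (fun v : FF.Place F L => v.deg) (fun n => H107R3.ZT.places_finite n) m ≤
      (Pt (f.map (mapRingHom (algebraMap F k))) (Nat.card F ^ m)).ncard + (f.natDegree + δ * f.natDegree) := by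
  classical
  have hQ : Nat.card F ^ m = p ^ (e * m) := by rw [hq, ← pow_mul]
  have hN : e * m ≠ 0 := Nat.mul_ne_zero (by omega) (by omega)
  set W := (H107R3.ZT.places_finite (k := F) (F := L) m).toFinset.filter (fun v => v.deg ∣ m) with hW
  have hWmem : ∀ w : Place F L, w ∈ W ↔ w.deg ∣ m := by
    intro w
    rw [hW, Finset.mem_filter, Set.Finite.mem_toFinset]
    exact ⟨fun h => h.2, fun h => ⟨Nat.le_of_dvd (by omega) h, h⟩⟩
  have hNN : NN (fun v : FF.Place F L => v.deg) (fun n => H107R3.ZT.places_finite n) m = ∑ w ∈ W, w.deg := by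
    unfold NN
    congr!
  have h1 := good_count (k := k) hf hAB hy hmin hfin hm (W.filter (fun w => Gd D w)) (by
    intro w
    rw [Finset.mem_filter, hWmem]
    tauto)
  have h2 := bad_places hD hδ (W.filter (fun w => ¬ Gd D w)) (fun w hw => (Finset.mem_filter.1 hw).2)
  rw [hfin] at h2
  have h3 := Finset.sum_filter_add_sum_filter_not W (fun w => Gd D w) (fun w => w.deg)
  rw [hNN, ← h3]
  rw [hQ] at h1 ⊢
  have h4 := bad_points (k := k) hf hD hδ (p := p) hN
  have h5 : {z ∈ Pt (f.map (mapRingHom (algebraMap F k))) (p ^ (e * m)) | aeval z.1 D ≠ 0}.ncard ≤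
      (Pt (f.map (mapRingHom (algebraMap F k))) (p ^ (e * m))).ncard :=
    Set.ncard_le_ncard (fun z hz => hz.1) (Pt_finite hN _)
  constructor
  · omega
  · omega

end

/-- the constant in the Weil bound -/
def WC (n d δ : ℕ) : ℕ := ((n * d * n + 1) * (n + 1) + 1) + (1 + n + δ * n)

theorem pow_half_le (p N : ℕ) (hp : 0 < p) : ((p ^ (N - N / 2) : ℕ) : ℝ) ≤ √(p : ℝ) * √((p : ℝ) ^ N) := by
  have hp1 : (1 : ℝ) ≤ p := by exact_mod_cast hp
  rw [← Real.sqrt_mul (by positivity)]
  apply Real.le_sqrt_of_sq_le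
  push_cast
  rw [← pow_mul, ← pow_succ']
  exact pow_le_pow_right₀ hp1 (by omega)

section
variable {F L k : Type} [Field F] [Finite F] [Field L] [Algebra F L] [Algebra (RatFunc F) L]
  [IsScalarTower F (RatFunc F) L] [FiniteDimensional (RatFunc F) L] [Algebra.IsSeparable (RatFunc F) L]
  [Field k] [IsAlgClosed k] [Algebra F k] [Algebra.IsAlgebraic F k] [Algebra F[X] L]
  [IsScalarTower F[X] (RatFunc F) L] [IsScalarTower F F[X] L]

theorem weil_L {f A B : F[X][X]} {D : F[X]} (hf : f.Monic) (hn : 0 < f.natDegree)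
    (hAB : A * f + B * derivative f = C D) (hD : D ≠ 0) {δ : ℕ} (hδ : D.natDegree ≤ δ) {d : ℕ}
    (hd : ∀ i, (f.coeff i).natDegree ≤ d)
    (hirr : Irreducible (f.map (mapRingHom (algebraMap F k))))
    (pb : PowerBasis (RatFunc F) L) (hy : (f.map (cEh F L)).eval pb.gen = 0) (hdim : pb.dim = f.natDegree)
    (hmin : minpoly (RatFunc F) pb.gen = f.map (algebraMap F[X] (RatFunc F))) :
    |((Pt (f.map (mapRingHom (algebraMap F k))) (Nat.card F)).ncard : ℝ) - Nat.card F| ≤
      WC f.natDegree d δ * √(Nat.card F : ℝ) := by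
  classical
  haveI := Fintype.ofFinite F
  haveI : IsFF F (RatFunc F) := isFF_ratFunc F
  haveI : IsFF F L := isFF_of_ext (F := RatFunc F)
  obtain ⟨p, hcharF⟩ := CharP.exists F
  obtain ⟨⟨e, he0⟩, hp, hq0⟩ := FiniteField.card F p
  have hq : Nat.card F = p ^ e := by rw [Nat.card_eq_fintype_card, hq0]; rfl
  haveI : Fact p.Prime := ⟨hp⟩
  haveI : CharP k p := charP_of_injective_algebraMap (algebraMap F k).injective p
  have hfin : finrank (RatFunc F) L = f.natDegree := by rw [pb.finrank, hdim]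
  set fk := f.map (mapRingHom (algebraMap F k)) with hfk
  have hfkm : fk.Monic := hf.map _
  have hfkd : fk.natDegree = f.natDegree := by rw [hfk, hf.natDegree_map]
  have hfix : ∀ i j, ((fk.coeff i).coeff j) ^ p ^ e = (fk.coeff i).coeff j := by
    intro i j
    rw [hfk, coeff_map, coe_mapRingHom, coeff_map, ← map_pow, ← hq, Nat.card_eq_fintype_card,
      FiniteField.pow_card]
  obtain ⟨C0, N0, hgeo⟩ := geo k p e he0 fk _ _ (D.map (algebraMap F k)) hfkm (by rw [hfkd]; exact hn) hfix
    ((Polynomial.map_ne_zero_iff (algebraMap F k).injective).2 hD) (map_hAB hAB) hirr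
  have hconst := const_of hf hirr pb hy hdim
  have hli : LinearIndependent (RatFunc F) (fun i : Fin f.natDegree => pb.gen ^ (i : ℕ)) := by
    have h1 := pb.basis.linearIndependent
    rw [pb.coe_basis] at h1
    exact h1.comp (Fin.cast hdim.symm) (Fin.cast_injective _)
  obtain ⟨P, hP, hPd⟩ := exists_num_bound (d := d) (n := f.natDegree) hf hn hd hy hconst hfin hli
  set q : ℝ := (Nat.card F : ℝ) with hqdef
  have hq1 : (1 : ℝ) < q := by
    rw [hqdef]
    exact_mod_cast Finite.one_lt_card (α := F)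
  set r := √q with hr
  have hr1 : 1 ≤ r := by
    rw [hr, Real.one_le_sqrt]; exact hq1.le
  have hrm : ∀ m : ℕ, √(q ^ m) = r ^ m := by
    intro m
    rw [hr, Real.sqrt_eq_rpow, Real.sqrt_eq_rpow, ← Real.rpow_natCast, ← Real.rpow_natCast,
      ← Real.rpow_mul (by positivity), ← Real.rpow_mul (by positivity), mul_comm]
  set n := f.natDegree with hndef
  set NL : ℕ → ℕ := NN (fun v : FF.Place F L => v.deg) (fun n => H107R3.ZT.places_finite n) with hNL
  have hcmp : ∀ m : ℕ, 1 ≤ m → |(NL m : ℝ) - ((Pt fk (Nat.card F ^ m)).ncard : ℝ)| ≤ n + δ * n := by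
    intro m hm
    obtain ⟨h1, h2⟩ := compare (k := k) hf hAB hD hδ hy hmin hfin hm he0 hq
    have h1' : ((Pt fk (Nat.card F ^ m)).ncard : ℝ) ≤ NL m + δ * n := by exact_mod_cast h1
    have h2' : (NL m : ℝ) ≤ (Pt fk (Nat.card F ^ m)).ncard + (n + δ * n) := by exact_mod_cast h2
    have hn0 : (0 : ℝ) ≤ n := by positivity
    rw [abs_le]
    constructor <;> linarith
  have hlarge : ∀ m : ℕ, N0 ≤ m → |((Pt fk (Nat.card F ^ m)).ncard : ℝ) - q ^ m| ≤ C0 * √(p : ℝ) * r ^ m := by
    intro m hm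
    obtain ⟨h1, h2⟩ := hgeo m hm
    rw [← hq] at h1 h2
    have h3 := pow_half_le p (e * m) hp.pos
    have h4 : (p : ℝ) ^ (e * m) = q ^ m := by
      rw [hqdef, hq, pow_mul]
      push_cast
      rfl
    rw [h4, hrm] at h3
    have h5 : ((C0 * p ^ (e * m - e * m / 2) : ℕ) : ℝ) ≤ C0 * √(p : ℝ) * r ^ m := by
      rw [Nat.cast_mul, mul_assoc]
      exact mul_le_mul_of_nonneg_left h3 (by positivity)
    have h1' : ((Pt fk (Nat.card F ^ m)).ncard : ℝ) ≤ q ^ m + ((C0 * p ^ (e * m - e * m / 2) : ℕ) : ℝ) := by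
      rw [hqdef]; exact_mod_cast h1
    have h2' : q ^ m ≤ ((Pt fk (Nat.card F ^ m)).ncard : ℝ) + ((C0 * p ^ (e * m - e * m / 2) : ℕ) : ℝ) := by
      rw [hqdef]; exact_mod_cast h2
    rw [abs_le]
    constructor <;> linarith
  let Cs : ℝ := ∑ j ∈ Finset.range N0, |(NL j : ℝ) - 1 - q ^ j|
  have hCs0 : 0 ≤ Cs := Finset.sum_nonneg fun _ _ => abs_nonneg _
  have hn0 : (0 : ℝ) ≤ n := by positivity
  have hδn : (0 : ℝ) ≤ δ * n := by positivity
  have hall : ∀ m : ℕ, 1 ≤ m → |(NL m : ℝ) - 1 - q ^ m| ≤ (C0 * √(p : ℝ) + (n + δ * n + 1) + Cs) * r ^ m := by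
    intro m hm
    have hrm1 : 1 ≤ r ^ m := one_le_pow₀ hr1
    rcases lt_or_ge m N0 with h | h
    · have h1 : |(NL m : ℝ) - 1 - q ^ m| ≤ Cs :=
        Finset.single_le_sum (f := fun j => |(NL j : ℝ) - 1 - q ^ j|) (fun _ _ => abs_nonneg _)
          (Finset.mem_range.2 h)
      have h2 : 0 ≤ C0 * √(p : ℝ) + (n + δ * n + 1) := by positivity
      nlinarith
    · have h1 := hcmp m hm
      have h2 := hlarge m h
      have h3 : (n + δ * n + 1 : ℝ) ≤ (n + δ * n + 1) * r ^ m := le_mul_of_one_le_right (by positivity) hrm1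
      have h4 : 0 ≤ Cs * r ^ m := by positivity
      have h5 : |(NL m : ℝ) - 1 - q ^ m| ≤ C0 * √(p : ℝ) * r ^ m + (n + δ * n + 1) := by
        rw [abs_le] at h1 h2 ⊢
        constructor <;> linarith [h1.1, h1.2, h2.1, h2.2]
      calc |(NL m : ℝ) - 1 - q ^ m| ≤ C0 * √(p : ℝ) * r ^ m + (n + δ * n + 1) := h5
        _ ≤ C0 * √(p : ℝ) * r ^ m + (n + δ * n + 1) * r ^ m + Cs * r ^ m := by linarith
        _ = _ := by ring
  have hfinal := bound_one F L P hP hPd r (C0 * √(p : ℝ) + (n + δ * n + 1) + Cs) (by positivity)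
    (by positivity) hall
  have h1 := hcmp 1 le_rfl
  rw [pow_one] at h1
  have h2 : |((Pt fk (Nat.card F)).ncard : ℝ) - q| ≤
      (((n * d * n + 1) * (n + 1) + 1 : ℕ) : ℝ) * r + (1 + n + δ * n) := by
    have h3 : |(NL 1 : ℝ) - 1 - q| ≤ (((n * d * n + 1) * (n + 1) + 1 : ℕ) : ℝ) * r := hfinal
    rw [abs_le] at h1 h3 ⊢
    constructor <;> linarith [h1.1, h1.2, h3.1, h3.2]
  refine h2.trans ?_
  unfold WC
  push_cast
  have h4 : (1 + n + δ * n : ℝ) ≤ (1 + n + δ * n) * r := le_mul_of_one_le_right (by positivity) hr1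
  linarith

end

/-- **The Weil bound for plane curves.** -/
theorem weil {F : Type} [Field F] [Finite F] (k : Type) [Field k] [IsAlgClosed k] [Algebra F k]
    [Algebra.IsAlgebraic F k] {f A B : F[X][X]} {D : F[X]} (hf : f.Monic)
    (hn : 0 < f.natDegree) (hAB : A * f + B * derivative f = C D) (hD : D ≠ 0) {δ : ℕ} (hδ : D.natDegree ≤ δ)
    {d : ℕ} (hd : ∀ i, (f.coeff i).natDegree ≤ d)
    (hirr : Irreducible (f.map (mapRingHom (algebraMap F k)))) :
    |({z : F × F | evalEval z.1 z.2 f = 0}.ncard : ℝ) - Nat.card F| ≤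
      WC f.natDegree d δ * √(Nat.card F : ℝ) := by
  classical
  haveI := Fintype.ofFinite F
  have hirrF : Irreducible f := hf.irreducible_of_irreducible_map _ _ hirr
  set F0 : (RatFunc F)[X] := f.map (algebraMap F[X] (RatFunc F)) with hF0
  have hF0m : F0.Monic := hf.map _
  haveI hfact : Fact (Irreducible F0) := ⟨(hf.irreducible_iff_irreducible_map_fraction_map (K := RatFunc F)).1 hirrF⟩
  have hsep : F0.Separable := by
    rw [Polynomial.separable_def']
    have h := congrArg (Polynomial.map (algebraMap F[X] (RatFunc F))) hAB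
    rw [Polynomial.map_add, Polynomial.map_mul, Polynomial.map_mul, Polynomial.map_C] at h
    have hc : algebraMap F[X] (RatFunc F) D ≠ 0 := by
      rw [map_ne_zero_iff _ (IsFractionRing.injective F[X] (RatFunc F))]
      exact hD
    refine ⟨C (algebraMap F[X] (RatFunc F) D)⁻¹ * A.map (algebraMap F[X] (RatFunc F)),
      C (algebraMap F[X] (RatFunc F) D)⁻¹ * B.map (algebraMap F[X] (RatFunc F)), ?_⟩
    rw [hF0, derivative_map, mul_assoc, mul_assoc, ← mul_add, h, ← C_mul, inv_mul_cancel₀ hc, C_1]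
  let L := AdjoinRoot F0
  let pb : PowerBasis (RatFunc F) L := AdjoinRoot.powerBasis hF0m.ne_zero
  have hgen : pb.gen = AdjoinRoot.root F0 := AdjoinRoot.powerBasis_gen hF0m.ne_zero
  have hdim : pb.dim = f.natDegree := by
    rw [AdjoinRoot.powerBasis_dim, hF0, hf.natDegree_map]
  haveI : FiniteDimensional (RatFunc F) L := pb.finite
  have hy : (f.map (cEh F L)).eval pb.gen = 0 := by
    rw [hgen, eval_map]
    have h1 := AdjoinRoot.eval₂_root F0
    rw [hF0, eval₂_map] at h1
    exact h1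
  have hmin : minpoly (RatFunc F) pb.gen = F0 := by
    rw [hgen, AdjoinRoot.minpoly_root hF0m.ne_zero, hF0m.leadingCoeff, inv_one, C_1, mul_one]
  haveI : Algebra.IsSeparable (RatFunc F) L := by
    have h1 : IsSeparable (RatFunc F) (AdjoinRoot.root F0) := by
      unfold IsSeparable
      rw [← hgen, hmin]
      exact hsep
    have h2 := (IntermediateField.isSeparable_adjoin_simple_iff_isSeparable (RatFunc F) L).2 h1
    rw [IntermediateField.adjoin_root_eq_top] at h2
    exact Algebra.IsSeparable.of_algHom (RatFunc F) _ (IntermediateField.topEquiv.symm : L ≃ₐ[RatFunc F] _).toAlgHom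
  have key := weil_L (k := k) hf hn hAB hD hδ hd hirr pb hy hdim hmin
  have hset : ({z : F × F | evalEval z.1 z.2 f = 0}.ncard) =
      (Pt (f.map (mapRingHom (algebraMap F k))) (Nat.card F)).ncard := by
    obtain ⟨p, hcharF⟩ := CharP.exists F
    obtain ⟨⟨e, he0⟩, hp, hq0⟩ := FiniteField.card F p
    have hq : Nat.card F = p ^ e := by rw [Nat.card_eq_fintype_card, hq0]; rfl
    haveI : Fact p.Prime := ⟨hp⟩
    haveI : CharP k p := charP_of_injective_algebraMap (algebraMap F k).injective p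
    obtain ⟨A0, hA0, hA0'⟩ := exists_fixed (k := k) p e he0.ne'
    have hrange : ∀ c : k, c ^ Nat.card F = c → ∃ a : F, algebraMap F k a = c := by
      intro c hc
      have h1 : (Finset.univ : Finset F).image (algebraMap F k) ⊆ A0 := by
        intro x hx
        obtain ⟨a, -, rfl⟩ := Finset.mem_image.1 hx
        rw [hA0', ← hq, ← map_pow, Nat.card_eq_fintype_card, FiniteField.pow_card]
      have h2 : (Finset.univ : Finset F).image (algebraMap F k) = A0 := by
        apply Finset.eq_of_subset_of_card_le h1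
        rw [hA0, Finset.card_image_of_injective _ (algebraMap F k).injective, Finset.card_univ, ← hq,
          Nat.card_eq_fintype_card]
      have h3 : c ∈ A0 := by rw [hA0', ← hq]; exact hc
      rw [← h2, Finset.mem_image] at h3
      obtain ⟨a, -, ha⟩ := h3
      exact ⟨a, ha⟩
    have hev : ∀ a b : F, evalEval (algebraMap F k a) (algebraMap F k b) (f.map (mapRingHom (algebraMap F k))) =
        algebraMap F k (evalEval a b f) := by
      intro a b
      rw [← eval₂_evalRingHom, eval₂_map, ← eval₂_evalRingHom, hom_eval₂]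
      congr 1
      refine RingHom.ext fun g => ?_
      rw [RingHom.comp_apply, RingHom.comp_apply, coe_mapRingHom, coe_evalRingHom, coe_evalRingHom,
        eval_map, eval₂_at_apply]
    rw [← Set.ncard_image_of_injective _ (Prod.map_injective.2 ⟨(algebraMap F k).injective, (algebraMap F k).injective⟩)]
    congr 1
    ext ⟨c, b⟩
    simp only [Set.mem_image, Set.mem_setOf_eq, Prod.exists, Prod.map_apply, Prod.mk.injEq, Pt]
    constructor
    · rintro ⟨a, a', h, rfl, rfl⟩
      rw [hev, h, map_zero, ← map_pow, ← map_pow, Nat.card_eq_fintype_card, FiniteField.pow_card,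
        FiniteField.pow_card]
      exact ⟨rfl, rfl, rfl⟩
    · rintro ⟨h1, h2, h3⟩
      obtain ⟨a, rfl⟩ := hrange c h1
      obtain ⟨a', rfl⟩ := hrange b h2
      rw [hev] at h3
      exact ⟨a, a', (algebraMap F k).injective (by rw [h3, map_zero]), rfl, rfl⟩
  rw [hset]
  exact key

end Pool.Agent.R410.PW
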