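import Pool.Agent.R410.PW.Fld

/-! The field of constants of the function field of an absolutely irreducible plane curve. -/

set_option autoImplicit false
set_option linter.all false
set_option linter.overlappingInstances false

open Module FF Pool.Agent.H525R3.FFp Pool.Agent.W132.AG Pool.Agent.W493.MX Pool.Agent.W343.BSD Polynomial

namespace Pool.Agent.R410.PW

/-- the embedding of the rational function fields -/
noncomputable def jr (F k : Type) [Field F] [Field k] [Algebra F k] : RatFunc F →+* RatFunc k :=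
  IsFractionRing.lift (A := F[X]) (K := RatFunc F)
    (g := (algebraMap k[X] (RatFunc k)).comp (mapRingHom (algebraMap F k)))
    ((IsFractionRing.injective k[X] (RatFunc k)).comp (Polynomial.map_injective _ (algebraMap F k).injective))

theorem jr_algebraMap (F k : Type) [Field F] [Field k] [Algebra F k] (g : F[X]) :
    jr F k (algebraMap F[X] (RatFunc F) g) = algebraMap k[X] (RatFunc k) (g.map (algebraMap F k)) := by
  unfold jr
  rw [IsFractionRing.lift_algebraMap]
  rfl

theorem const_rat (F k : Type) [Field F] [Field k] [Algebra F k] (a : RatFunc F) (c : k)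
    (h : jr F k a = algebraMap k[X] (RatFunc k) (C c)) : ∃ c0 : F, a = algebraMap F[X] (RatFunc F) (C c0) := by
  obtain ⟨u, v, hv, rfl⟩ := IsFractionRing.div_surjective (A := F[X]) a
  have hv0 : v ≠ 0 := nonZeroDivisors.ne_zero hv
  have hvk : algebraMap F[X] (RatFunc F) v ≠ 0 := by
    rw [map_ne_zero_iff _ (IsFractionRing.injective F[X] (RatFunc F))]
    exact hv0
  have h1 : jr F k (algebraMap F[X] (RatFunc F) u) =
      algebraMap k[X] (RatFunc k) (C c) * jr F k (algebraMap F[X] (RatFunc F) v) := by
    rw [← h, ← map_mul, div_mul_cancel₀ _ hvk]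
  rw [jr_algebraMap, jr_algebraMap, ← map_mul] at h1
  have h2 := IsFractionRing.injective k[X] (RatFunc k) h1
  have h3 := congrArg (fun p => coeff p v.natDegree) h2
  simp only [coeff_map, coeff_C_mul, coeff_natDegree] at h3
  have hlc : v.leadingCoeff ≠ 0 := leadingCoeff_ne_zero.2 hv0
  have hlck : algebraMap F k v.leadingCoeff ≠ 0 := (_root_.map_ne_zero _).2 hlc
  refine ⟨u.coeff v.natDegree / v.leadingCoeff, ?_⟩
  have hc : c = algebraMap F k (u.coeff v.natDegree / v.leadingCoeff) := by
    rw [map_div₀, h3, mul_div_assoc, div_self hlck, mul_one]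
  rw [div_eq_iff hvk, ← map_mul]
  congr 1
  apply Polynomial.map_injective _ (algebraMap F k).injective
  rw [h2, Polynomial.map_mul, Polynomial.map_C, ← hc]

theorem const_of {F k L : Type} [Field F] [Field k] [IsAlgClosed k] [Algebra F k] [Field L] [Algebra F L]
    [Algebra (RatFunc F) L] [IsScalarTower F (RatFunc F) L] {f : F[X][X]} (hf : f.Monic)
    (hirr : Irreducible (f.map (mapRingHom (algebraMap F k))))
    (pb : PowerBasis (RatFunc F) L) (hy : (f.map (cEh F L)).eval pb.gen = 0) (hdim : pb.dim = f.natDegree) :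
    ∀ a : L, IsAlgebraic F a → a ∈ (algebraMap F L).range := by
  intro α hα
  set fk := f.map (mapRingHom (algebraMap F k)) with hfk
  have hfkm : fk.Monic := hf.map _
  set F1 : (RatFunc k)[X] := fk.map (algebraMap k[X] (RatFunc k)) with hF1
  have hF1m : F1.Monic := hfkm.map _
  have hF1d : F1.natDegree = f.natDegree := by rw [hF1, hfkm.natDegree_map, hfk, hf.natDegree_map]
  haveI : Fact (Irreducible F1) := ⟨(hfkm.irreducible_iff_irreducible_map_fraction_map (K := RatFunc k)).1 hirr⟩
  let Lk := AdjoinRoot F1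
  letI : Algebra (RatFunc F) Lk := ((algebraMap (RatFunc k) Lk).comp (jr F k)).toAlgebra
  have hmin : minpoly (RatFunc F) pb.gen = f.map (algebraMap F[X] (RatFunc F)) := by
    symm
    apply Polynomial.eq_of_monic_of_dvd_of_natDegree_le (minpoly.monic pb.isIntegral_gen) (hf.map _)
    · apply minpoly.dvd
      rw [aeval_def, eval₂_map, ← hy, eval_map]
      rfl
    · rw [hf.natDegree_map, pb.natDegree_minpoly, hdim]
  have hmap : (f.map (algebraMap F[X] (RatFunc F))).map (jr F k) = F1 := by
    rw [Polynomial.map_map, hF1, hfk, Polynomial.map_map]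
    congr 1
    refine RingHom.ext fun g => ?_
    rw [RingHom.comp_apply, jr_algebraMap]
    rfl
  have hroot : aeval (AdjoinRoot.root F1) (minpoly (RatFunc F) pb.gen) = 0 := by
    rw [hmin, aeval_def]
    change eval₂ ((algebraMap (RatFunc k) Lk).comp (jr F k)) _ _ = 0
    rw [← eval₂_map, hmap]
    exact AdjoinRoot.eval₂_root F1
  let ψ : L →ₐ[RatFunc F] Lk := pb.lift (AdjoinRoot.root F1) hroot
  have hψgen : ψ pb.gen = AdjoinRoot.root F1 := pb.lift_gen _ _
  have hψF : ∀ c : F, ψ (algebraMap F L c) = algebraMap k Lk (algebraMap F k c) := by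
    intro c
    rw [IsScalarTower.algebraMap_apply F (RatFunc F) L, ψ.commutes]
    change algebraMap (RatFunc k) Lk (jr F k (algebraMap F[X] (RatFunc F) (C c))) = _
    rw [jr_algebraMap, Polynomial.map_C, IsScalarTower.algebraMap_apply k (RatFunc k) Lk]
    rfl
  -- the image is a constant
  obtain ⟨c, hc⟩ : ∃ c : k, ψ α = algebraMap k Lk c := by
    obtain ⟨p, hp0, hp⟩ := hα
    have h1 : IsAlgebraic k (ψ α) := by
      refine ⟨p.map (algebraMap F k), (Polynomial.map_ne_zero_iff (algebraMap F k).injective).2 hp0, ?_⟩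
      rw [aeval_def, eval₂_map]
      have h2 := congrArg ψ.toRingHom hp
      rw [map_zero, aeval_def] at h2
      have h3 : ψ.toRingHom (eval₂ (algebraMap F L) α p) =
          eval₂ (ψ.toRingHom.comp (algebraMap F L)) (ψ.toRingHom α) p := hom_eval₂ _ _ _ _
      rw [h3] at h2
      have h4 : ψ.toRingHom.comp (algebraMap F L) = (algebraMap k Lk).comp (algebraMap F k) :=
        RingHom.ext fun c => hψF c
      rw [h4] at h2
      exact h2
    have h2 := IsAlgClosed.degree_eq_one_of_irreducible k (minpoly.irreducible h1.isIntegral)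
    obtain ⟨c, hc⟩ := minpoly.mem_range_of_degree_eq_one k (ψ α) h2
    exact ⟨c, hc.symm⟩
  obtain ⟨g, hg, hαg⟩ := pb.exists_eq_aeval α
  have h1 : ψ α = AdjoinRoot.mk F1 (g.map (jr F k)) := by
    rw [hαg, ← Polynomial.aeval_algHom_apply, hψgen, aeval_def]
    change eval₂ ((algebraMap (RatFunc k) Lk).comp (jr F k)) _ _ = _
    rw [← eval₂_map]
    exact AdjoinRoot.aeval_eq _
  have h2 : AdjoinRoot.mk F1 (g.map (jr F k) - C (algebraMap k[X] (RatFunc k) (C c))) = 0 := by
    rw [map_sub, ← h1, hc, sub_eq_zero, IsScalarTower.algebraMap_apply k (RatFunc k) Lk]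
    rfl
  rw [AdjoinRoot.mk_eq_zero] at h2
  have hn : 0 < F1.natDegree := by
    rw [hF1d]; omega
  have h3 : g.map (jr F k) - C (algebraMap k[X] (RatFunc k) (C c)) = 0 := by
    apply Polynomial.eq_zero_of_dvd_of_natDegree_lt h2
    refine (natDegree_sub_le _ _).trans_lt ?_
    rw [natDegree_C, max_lt_iff]
    refine ⟨natDegree_map_le.trans_lt ?_, hn⟩
    rw [hF1d]; omega
  rw [sub_eq_zero] at h3
  have h4 : g.natDegree = 0 := by
    rw [← Polynomial.natDegree_map_eq_of_injective (jr F k).injective g, h3, natDegree_C]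
  rw [Polynomial.eq_C_of_natDegree_eq_zero h4, Polynomial.map_C] at h3
  obtain ⟨c0, hc0⟩ := const_rat F k _ c (C_injective h3)
  refine ⟨c0, ?_⟩
  rw [hαg, Polynomial.eq_C_of_natDegree_eq_zero h4, aeval_C, hc0]
  exact (cEh_C (L := L) c0).symm

end Pool.Agent.R410.PW
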