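import Pool.Agent.R410.PW.Geo

/-! The number of points of a plane curve over the large finite fields, from Bombieri's bound. -/

set_option autoImplicit false
set_option linter.all false
set_option linter.overlappingInstances false

open Module FF Pool.Agent.H525R3.FFp Pool.Agent.W132.AG Pool.Agent.W493.MX Polynomial

namespace Pool.Agent.R410.PW

section
variable {k E : Type} [Field k] [IsAlgClosed k] [Field E] [Algebra k E] [Algebra (RatFunc k) E]
  [IsScalarTower k (RatFunc k) E] [IsFF k E] {f : k[X][X]}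

/-- the stabiliser of a good place is trivial -/
theorem stb_trivial (hf : f.Monic) (hs : (f.map (algebraMap k[X] (RatFunc k))).Separable)
    (hE : ((f.map (algebraMap k[X] (RatFunc k))).map (algebraMap (RatFunc k) E)).Splits)
    (hgen : ∀ σ : E ≃ₐ[RatFunc k] E, (∀ y ∈ Rt f E, σ y = y) → σ = 1)
    (P : Place k E) {c : k} (h : 0 < P.ord (cE E (X - C c : k[X])))
    {A B : k[X][X]} {D : k[X]} (hAB : A * f + B * derivative f = C D) (hc : D.eval c ≠ 0)
    (σ : E ≃ₐ[RatFunc k] E) (hσ : Stb P σ) : σ = 1 := by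
  have hinj := vr_inj hf hs hE P h hAB hc
  apply hgen
  intro y hy
  have hτR : σ y ∈ Rt f E := map_mem_Rt hf σ.toRingEquiv (fun i => σ.commutes _) hy
  have h1 : vr hf P h ⟨σ y, hτR⟩ = vr hf P h ⟨y, hy⟩ := by
    apply (algebraMap k P.RF).injective
    unfold vr
    rw [algebraMap_vh, algebraMap_vh]
    exact (hσ.red (reg_Rt hf P h hy)).2
  exact congrArg Subtype.val (hinj h1)

end

theorem count_aux (k E : Type) [Field k] [IsAlgClosed k] [Field E] [Algebra k E] [Algebra (RatFunc k) E]
    [IsScalarTower k (RatFunc k) E] [FiniteDimensional (RatFunc k) E] [IsGalois (RatFunc k) E]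
    [IsFF k E] (p e : ℕ) [Fact p.Prime] [CharP k p] (he : 0 < e)
    (f A B : k[X][X]) (D : k[X]) (hf : f.Monic) (hn : 0 < f.natDegree) (hD : D ≠ 0)
    (hAB : A * f + B * derivative f = C D)
    (hirr : Irreducible (f.map (algebraMap k[X] (RatFunc k))))
    (hE : ((f.map (algebraMap k[X] (RatFunc k))).map (algebraMap (RatFunc k) E)).Splits)
    (hgen : ∀ σ : E ≃ₐ[RatFunc k] E, (∀ y ∈ Rt f E, σ y = y) → σ = 1)
    (Φ : E ≃+* E) (hΦ : ∀ c : k, Φ (algebraMap k E c) = algebraMap k E (c ^ p ^ e))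
    (hΦX : Φ (cE E (X : k[X])) = cE E (X : k[X]))
    (hΦf : ∀ i, Φ (cE E (f.coeff i)) = cE E (f.coeff i)) :
    ∃ C0 N0 : ℕ, ∀ n : ℕ, N0 ≤ n →
      (Pt f ((p ^ e) ^ n)).ncard ≤ (p ^ e) ^ n + C0 * p ^ (e * n - e * n / 2) ∧
      (p ^ e) ^ n ≤ (Pt f ((p ^ e) ^ n)).ncard + C0 * p ^ (e * n - e * n / 2) := by
  classical
  haveI : Fintype (E ≃ₐ[RatFunc k] E) := Fintype.ofFinite _
  have hs := sep_rat hf hAB hD
  set G := E ≃ₐ[RatFunc k] E with hGdef
  obtain ⟨C1, N0, hA'⟩ := s_A k E p
  set g := Fintype.card G with hg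
  have hgpos : 0 < g := Fintype.card_pos
  have hgr : finrank (RatFunc k) E = g := by
    rw [hg, ← Nat.card_eq_fintype_card, hGdef, IsGalois.card_aut_eq_finrank]
  set bad : Finset k := D.roots.toFinset with hbad
  have hnbad : ∀ c, c ∉ bad → D.eval c ≠ 0 := by
    intro c hc h0
    exact hc (by rw [hbad, Multiset.mem_toFinset, mem_roots hD]; exact h0)
  set r := f.natDegree with hr
  refine ⟨r * (C1 + bad.card) + C1 + r * bad.card + bad.card, N0 + 1, fun n hnn => ?_⟩
  set m := e * n with hmdef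
  have hnm : n ≤ m := Nat.le_mul_of_pos_left n he
  have hm0 : m ≠ 0 := by omega
  have hQ : (p ^ e) ^ n = p ^ m := by rw [← pow_mul]
  rw [hQ]
  set Q := p ^ m with hQdef
  have hp : p.Prime := Fact.out
  -- the powers of Φ
  have hΦn : ∀ (j : ℕ) (c : k), (Φ ^ j : E ≃+* E) (algebraMap k E c) =
      algebraMap k E (c ^ (p ^ e) ^ j) := by
    intro j
    induction j with
    | zero => intro c; simp
    | succ j ih =>
      intro c
      rw [pow_succ, RingAut.mul_apply, hΦ, ih, ← pow_mul, ← pow_succ']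
  have hΦnX : ∀ (x : E), Φ x = x → ∀ j : ℕ, (Φ ^ j : E ≃+* E) x = x := by
    intro x hx j
    induction j with
    | zero => simp
    | succ j ih => rw [pow_succ, RingAut.mul_apply, hx, ih]
  set Ψ : E ≃+* E := Φ ^ n with hΨ
  have hΨc : ∀ c : k, Ψ (algebraMap k E c) = algebraMap k E (c ^ Q) := by
    intro c; rw [hΨ, hΦn, hQ]
  have hΨX : Ψ (cE E (X : k[X])) = cE E (X : k[X]) := hΦnX _ hΦX n
  have hΨf : ∀ i, Ψ (cE E (f.coeff i)) = cE E (f.coeff i) := fun i => hΦnX _ (hΦf i) n
  have hΨτf : ∀ (τ : G) i, (Ψ * τ.toRingEquiv) (cE E (f.coeff i)) = cE E (f.coeff i) := by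
    intro τ i
    rw [RingAut.mul_apply]
    have : (τ.toRingEquiv) (cE E (f.coeff i)) = cE E (f.coeff i) := τ.commutes _
    rw [this, hΨf]
  have hcEsub : ∀ c : k, cE E (X - C c : k[X]) = cE E (X : k[X]) - algebraMap k E c := by
    intro c
    have h1 : cE E (X : k[X]) = algebraMap (RatFunc k) E RatFunc.X := by
      unfold cE; rw [RatFunc.algebraMap_X]
    rw [mxb_cE, map_sub, h1, ← IsScalarTower.algebraMap_apply]
  -- zeros
  have hzero : ∀ c : k, ∃ w0 : Place k (RatFunc k), ∀ P : Place k E,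
      0 < P.ord (cE E (X - C c : k[X])) ↔ und (RatFunc k) P = w0 := by
    intro c
    obtain ⟨w0, hw0⟩ := exists_zero_gen (k := k) (x := (RatFunc.X : RatFunc k)) RatFunc.adjoin_X c
    refine ⟨w0, fun P => ?_⟩
    have hov := over_und (F := RatFunc k) P
    have hpos : (0 : ℤ) < eI (RatFunc k) P := by exact_mod_cast hov.1
    rw [mxb_cE, hov.2]
    constructor
    · intro h
      exact mxb_unique c ((mul_pos_iff_of_pos_left hpos).1 h) hw0
    · intro h
      rw [h]
      exact mul_pos hpos hw0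
  choose w0 hw0 using hzero
  -- the set of good constants
  obtain ⟨A0, hAc, hAr⟩ := exists_fixed (k := k) p m hm0
  set A' := A0 \ bad with hA'def
  have hA'c : Q ≤ A'.card + bad.card := by
    have := Finset.card_le_card_sdiff_add_card (s := A0) (t := bad)
    rw [hQdef, ← hAc]; exact this
  have hA'le : A'.card ≤ Q := by
    rw [hQdef, ← hAc]; exact Finset.card_le_card Finset.sdiff_subset
  -- the fibres
  set Fib : k → Finset (Place k E) := fun c => fibS E (w0 c) with hFib
  have hmemFib : ∀ c P, P ∈ Fib c ↔ 0 < P.ord (cE E (X - C c : k[X])) := by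
    intro c P
    rw [hw0 c P, hFib]; exact mem_fibS
  have hne : ∀ c ∈ A', (Fib c).Nonempty := by
    intro c _
    by_contra hemp
    rw [Finset.not_nonempty_iff_eq_empty] at hemp
    have := sum_fibS (k := k) (E := E) (w0 c)
    rw [show fibS E (w0 c) = ∅ from hemp, Finset.sum_empty] at this
    have h1 : 0 < finrank (RatFunc k) E := by rw [hgr]; exact hgpos
    have h2 : 0 < (w0 c).deg := deg_pos _
    have := Nat.mul_pos h1 h2
    omega
  have hFibc : ∀ c ∈ A', (Fib c).card = g := by
    intro c hc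
    obtain ⟨P, hP⟩ := hne c hc
    have hPc := (hmemFib c P).1 hP
    have hcb : c ∉ bad := (Finset.mem_sdiff.1 hc).2
    obtain ⟨h1, h2⟩ := s_G2 k (RatFunc k) E P
    have hone : Nat.card {σ : E ≃ₐ[RatFunc k] E // Stb P σ} = 1 := by
      rw [Nat.card_eq_one_iff_unique]
      refine ⟨⟨fun a b => ?_⟩, ⟨⟨1, Stb.one P⟩⟩⟩
      apply Subtype.ext
      rw [stb_trivial hf hs hE hgen P hPc hAB (hnbad c hcb) a.1 a.2,
        stb_trivial hf hs hE hgen P hPc hAB (hnbad c hcb) b.1 b.2]
    rw [hone] at h1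
    rw [← h1, mul_one, hgr] at h2
    rw [← h2]
    congr 1
    rw [hFib, (hw0 c P).1 hPc]
  have hdisj : ∀ c ∈ A', ∀ c' ∈ A', c ≠ c' → Disjoint (Fib c) (Fib c') := by
    intro c _ c' _ hcc
    rw [Finset.disjoint_left]
    intro P hP hP'
    rw [hmemFib] at hP hP'
    have h1 := P.ord_const (c := c - c') (sub_ne_zero.2 hcc)
    have h3 : algebraMap k E (c - c') = cE E (X - C c' : k[X]) - cE E (X - C c : k[X]) := by
      rw [hcEsub, hcEsub, map_sub]; ring
    have hn0 : cE E (X - C c : k[X]) ≠ 0 := by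
      intro h; rw [h, P.ord_zero] at hP; exact lt_irrefl _ hP
    have hn1 : cE E (X - C c' : k[X]) ≠ 0 := by
      intro h; rw [h, P.ord_zero] at hP'; exact lt_irrefl _ hP'
    have h4 : cE E (X - C c' : k[X]) - cE E (X - C c : k[X]) ≠ 0 := by
      rw [← h3]
      exact (map_ne_zero_iff _ (algebraMap k E).injective).2 (sub_ne_zero.2 hcc)
    have h5 := P.ord_sub hn1 hn0 h4
    rw [← h3, h1] at h5
    rcases min_le_iff.1 h5 with h6 | h6 <;> omega
  set Ω := A'.biUnion Fib with hΩ
  have hΩc : Ω.card = A'.card * g := by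
    rw [hΩ, Finset.card_biUnion hdisj, Finset.sum_congr rfl hFibc, Finset.sum_const, smul_eq_mul]
  -- the Frobenius of a place
  have hcover : ∀ P : Place k E, ∃ τ : G, ∀ c ∈ A', P ∈ Fib c → FrobAt Q (Ψ * τ.toRingEquiv) P := by
    intro P
    by_cases hPΩ : ∃ c ∈ A', P ∈ Fib c
    swap
    · exact ⟨1, fun c hc h => absurd ⟨c, hc, h⟩ hPΩ⟩
    obtain ⟨c, hc, hPc⟩ := hPΩ
    have hPc' := (hmemFib c P).1 hPc
    have hcA := (hAr c).1 (Finset.mem_sdiff.1 hc).1
    have hψ : ∀ c : k, ∃ c' : k, Ψ (algebraMap k E c) = algebraMap k E c' := fun c => ⟨_, hΨc c⟩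
    set P' := compR P Ψ hψ with hP'
    have h1 : 0 < P'.ord (cE E (X - C c : k[X])) := by
      rw [hP', compR_ord, hcEsub, map_sub, hΨX, hΨc, hcA, ← hcEsub]
      exact hPc'
    have h2 : und (RatFunc k) P = und (RatFunc k) P' := by
      rw [(hw0 c P).1 hPc', (hw0 c P').1 h1]
    obtain ⟨τ, hτ⟩ := s_G1 k (RatFunc k) E P P' h2
    have h3 : ∀ z, P.ord (Ψ z) = P.ord (τ z) := hτ
    refine ⟨τ⁻¹, fun _ _ _ => ?_⟩
    apply frobAt_of_ord
    · intro c
      rw [RingAut.mul_apply]
      have : (τ⁻¹ : G).toRingEquiv (algebraMap k E c) = algebraMap k E c := aut_const _ c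
      rw [this, hΨc]
    · intro f
      rw [RingAut.mul_apply, h3]
      have : τ ((τ⁻¹ : G).toRingEquiv f) = f := by
        change τ ((τ⁻¹ : G) f) = f
        rw [← AlgEquiv.mul_apply, mul_inv_cancel, AlgEquiv.one_apply]
      rw [this]
  choose T hT using hcover
  set U := Q + C1 * p ^ (m - m / 2) with hU
  set u : G → ℕ := fun τ => (Ω.filter (fun P => T P = τ)).card with hu
  have hbound : ∀ τ : G, u τ ≤ U := by
    intro τ
    refine hA' m (by omega) (Ψ * τ.toRingEquiv) ?_ _ ?_
    · intro c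
      rw [RingAut.mul_apply]
      have : τ.toRingEquiv (algebraMap k E c) = algebraMap k E c := aut_const _ c
      rw [this, hΨc]
    · intro P hP
      rw [Finset.mem_filter] at hP
      obtain ⟨hP1, rfl⟩ := hP
      rw [hΩ, Finset.mem_biUnion] at hP1
      obtain ⟨c, hc, hPc⟩ := hP1
      exact hT P c hc hPc
  have hsumu : ∑ τ : G, u τ = A'.card * g := by
    rw [← hΩc]
    exact (Finset.card_eq_sum_card_fiberwise (fun P _ => Finset.mem_univ (T P))).symm
  have hsumfx : ∑ τ : G, fx f (Ψ * τ.toRingEquiv) = g := sum_fx hf hn hs hE hirr Ψ hΨf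
  have hfxle : ∀ τ : G, fx f (Ψ * τ.toRingEquiv) ≤ r := by
    intro τ
    unfold fx
    refine (Finset.card_filter_le _ _).trans ?_
    rw [card_Rt hf hs hE]
  set N' := ∑ c ∈ A', (Sf f Q c).card with hN'
  have hkey : g * N' = ∑ τ : G, u τ * fx f (Ψ * τ.toRingEquiv) := by
    have h1 : ∀ c ∈ A', g * (Sf f Q c).card = ∑ P ∈ Fib c, fx f (Ψ * (T P).toRingEquiv) := by
      intro c hc
      rw [← hFibc c hc, ← smul_eq_mul, ← Finset.sum_const]
      refine Finset.sum_congr rfl fun P hP => ?_
      exact card_Sf_eq hf hs hE P ((hmemFib c P).1 hP) hAB (hnbad c (Finset.mem_sdiff.1 hc).2) _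
        (hΨτf _) (hT P c hc hP)
    rw [hN', Finset.mul_sum, Finset.sum_congr rfl h1, ← Finset.sum_biUnion hdisj, ← hΩ,
      ← Finset.sum_fiberwise' Ω T (fun τ => fx f (Ψ * τ.toRingEquiv))]
    refine Finset.sum_congr rfl fun τ _ => ?_
    rw [Finset.sum_const, smul_eq_mul]
  have hup : N' ≤ U := by
    have h1 : g * N' ≤ g * U := by
      rw [hkey]
      calc ∑ τ : G, u τ * fx f (Ψ * τ.toRingEquiv) ≤ ∑ τ : G, U * fx f (Ψ * τ.toRingEquiv) :=
            Finset.sum_le_sum fun τ _ => Nat.mul_le_mul_right _ (hbound τ)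
        _ = g * U := by rw [← Finset.mul_sum, hsumfx, mul_comm]
    exact Nat.le_of_mul_le_mul_left h1 hgpos
  have hlow : U ≤ N' + r * (U - A'.card) := by
    have h0 : A'.card ≤ U := by omega
    have h1 : g * U ≤ g * (N' + r * (U - A'.card)) := by
      calc g * U = ∑ τ : G, U * fx f (Ψ * τ.toRingEquiv) := by
            rw [← Finset.mul_sum, hsumfx, mul_comm]
        _ ≤ ∑ τ : G, (u τ * fx f (Ψ * τ.toRingEquiv) + r * (U - u τ)) := by
            refine Finset.sum_le_sum fun τ _ => ?_
            obtain ⟨d, hd⟩ := Nat.exists_eq_add_of_le (hbound τ)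
            rw [hd, Nat.add_sub_cancel_left, add_mul]
            have := Nat.mul_le_mul_left d (hfxle τ)
            nlinarith
        _ = g * N' + r * ∑ τ : G, (U - u τ) := by
            rw [Finset.sum_add_distrib, ← hkey, ← Finset.mul_sum]
        _ = g * (N' + r * (U - A'.card)) := by
            have h2 : ∑ τ : G, (U - u τ) = g * (U - A'.card) := by
              have h3 : ∑ τ : G, (U - u τ) + ∑ τ : G, u τ = g * U := by
                rw [← Finset.sum_add_distrib, Finset.sum_congr rfl fun τ _ => Nat.sub_add_cancel (hbound τ),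
                  Finset.sum_const, Finset.card_univ, smul_eq_mul]
              rw [hsumu] at h3
              rw [Nat.mul_sub, mul_comm g A'.card]
              omega
            rw [h2]; ring
    exact Nat.le_of_mul_le_mul_left h1 hgpos
  -- all points
  have hall : (Pt f Q).ncard = ∑ c ∈ A0, (Sf f Q c).card := ncard_Pt hf Q A0 hAr
  have hsplit : (Pt f Q).ncard ≤ N' + r * bad.card ∧ N' ≤ (Pt f Q).ncard := by
    rw [hall, ← Finset.sum_sdiff (Finset.inter_subset_left (s₁ := A0) (s₂ := bad)),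
      Finset.sdiff_inter_self_left]
    refine ⟨?_, Nat.le_add_right _ _⟩
    apply Nat.add_le_add_left
    refine (Finset.sum_le_card_nsmul _ _ _ fun c _ => card_Sf_le hf Q c).trans ?_
    rw [smul_eq_mul, mul_comm]
    exact Nat.mul_le_mul_left _ (Finset.card_le_card Finset.inter_subset_right)
  set R := p ^ (m - m / 2) with hR
  have hR1 : 1 ≤ R := Nat.one_le_pow _ _ hp.pos
  have hb1 : r * bad.card ≤ r * bad.card * R := Nat.le_mul_of_pos_right _ hR1
  have hb2 : bad.card ≤ bad.card * R := Nat.le_mul_of_pos_right _ hR1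
  have hexp : (r * (C1 + bad.card) + C1 + r * bad.card + bad.card) * R =
      r * (C1 * R + bad.card * R) + C1 * R + r * bad.card * R + bad.card * R := by ring
  rw [hexp]
  constructor
  · omega
  · have h5 : U - A'.card ≤ C1 * R + bad.card := by omega
    have h6 : r * (U - A'.card) ≤ r * (C1 * R + bad.card * R) := Nat.mul_le_mul_left _ (by omega)
    omega

/-- the number of points of an absolutely irreducible plane curve over the large extensions of a
finite field -/
theorem geo (k : Type) [Field k] [IsAlgClosed k] (p e : ℕ) [Fact p.Prime] [CharP k p] (he : 0 < e)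
    (f A B : k[X][X]) (D : k[X]) (hf : f.Monic) (hn : 0 < f.natDegree)
    (hfix : ∀ i j, ((f.coeff i).coeff j) ^ p ^ e = (f.coeff i).coeff j) (hD : D ≠ 0)
    (hAB : A * f + B * derivative f = C D) (hirr : Irreducible f) :
    ∃ C0 N0 : ℕ, ∀ n : ℕ, N0 ≤ n →
      (Pt f ((p ^ e) ^ n)).ncard ≤ (p ^ e) ^ n + C0 * p ^ (e * n - e * n / 2) ∧
      (p ^ e) ^ n ≤ (Pt f ((p ^ e) ^ n)).ncard + C0 * p ^ (e * n - e * n / 2) := by
  classical
  have hpp : p.Prime := Fact.out
  let K := RatFunc k
  let q := p ^ e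
  let L : K[X] := f.map (algebraMap k[X] K)
  have hperf : PerfectRing k p := inferInstance
  let fr : k ≃+* k := iterateFrobeniusEquiv k p e
  have hfr : ∀ x, fr x = x ^ q := fun x => rfl
  let φ : K ≃+* K := IsFractionRing.ringEquivOfRingEquiv (Polynomial.mapEquiv fr)
  have hφ : ∀ f : k[X], φ (algebraMap k[X] K f) = algebraMap k[X] K (f.map (fr : k →+* k)) := by
    intro f
    exact IsFractionRing.ringEquivOfRingEquiv_algebraMap _ f
  have hfix' : ∀ f : k[X], (∀ i, f.coeff i ^ p ^ e = f.coeff i) → f.map (fr : k →+* k) = f := by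
    intro f hf
    ext i
    rw [Polynomial.coeff_map]
    exact hf i
  have hLφ : L.map (φ : K →+* K) = L := by
    ext i
    rw [coeff_map, coeff_map]
    change φ (algebraMap k[X] K (f.coeff i)) = _
    rw [hφ, hfix' _ (hfix i)]
  have hsep : L.Separable := sep_rat hf hAB hD
  let E := L.SplittingField
  have hFF : IsFF k K := isFF_base (x := (RatFunc.X : RatFunc k)) RatFunc.transcendental_X
    RatFunc.adjoin_X
  have hFFE : IsFF k E := isFF_of_ext (F := K)
  have hGal : IsGalois K E := IsGalois.of_separable_splitting_field hsep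
  have hFin : FiniteDimensional K E := inferInstance
  have hST : IsScalarTower k K E := inferInstance
  obtain ⟨Φ, hΦ⟩ := exists_twist (E := E) L φ hLφ
  have hcomm : ∀ c : k, Φ (algebraMap k E c) = algebraMap k E (c ^ p ^ e) := by
    intro c
    have h1 : ∀ c : k, algebraMap k K c = algebraMap k[X] K (C c) := fun c => rfl
    rw [IsScalarTower.algebraMap_apply k K E, hΦ, h1, hφ, Polynomial.map_C,
      IsScalarTower.algebraMap_apply k K E, h1]
    rfl
  have hcE : ∀ g : k[X], (∀ i, g.coeff i ^ p ^ e = g.coeff i) → Φ (cE E g) = cE E g := by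
    intro g hg
    change Φ (algebraMap K E (algebraMap k[X] K g)) = algebraMap K E (algebraMap k[X] K g)
    rw [hΦ, hφ, hfix' g hg]
  have hsplit : (L.map (algebraMap K E)).Splits := IsSplittingField.splits E L
  refine count_aux k E p e he f A B D hf hn hD hAB ?_ hsplit ?_ Φ hcomm ?_ (fun i => hcE _ (hfix i))
  · exact (hf.irreducible_iff_irreducible_map_fraction_map (K := K)).1 hirr
  · intro σ hσ
    have h1 : Algebra.adjoin K (L.rootSet E) = ⊤ := IsSplittingField.adjoin_rootSet E L
    have h2 : (σ : E →ₐ[K] E) = ((1 : E ≃ₐ[K] E) : E →ₐ[K] E) := by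
      refine AlgHom.ext_of_adjoin_eq_top h1 ?_
      intro v hv
      apply hσ
      rw [mem_Rt hf]
      rw [Polynomial.mem_rootSet] at hv
      rw [← Polynomial.map_map, eval_map]
      exact hv.2
    ext z
    exact DFunLike.congr_fun h2 z
  · apply hcE
    intro i
    rw [coeff_X]
    split_ifs
    · exact one_pow _
    · exact zero_pow (pow_ne_zero _ hpp.ne_zero)

end Pool.Agent.R410.PW
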