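import Pool.Agent.R410.PW.Newt
import Pool.Agent.R410.PW.Geo2

/-! The function field of a plane curve over a finite field: the zeta numerator has bounded degree. -/

set_option autoImplicit false
set_option linter.all false
set_option linter.overlappingInstances false

open Module FF Pool.Agent.H525R3.FFp Pool.Agent.W132.AG Pool.Agent.W493.MX Pool.Agent.W343.BSD Polynomial

namespace Pool.Agent.R410.PW

theorem isFF_ratFunc (F : Type) [Field F] [PerfectField F] : IsFF F (RatFunc F) :=
  isFF_base (x := (RatFunc.X : RatFunc F)) RatFunc.transcendental_X RatFunc.adjoin_X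

section
variable {F L : Type} [Field F] [Field L] [Algebra F L] [Algebra (RatFunc F) L]

/-- the embedding of the polynomials -/
noncomputable def cEh (F L : Type) [Field F] [Field L] [Algebra (RatFunc F) L] : F[X] →+* L :=
  (algebraMap (RatFunc F) L).comp (algebraMap F[X] (RatFunc F))

theorem cEh_eq (g : F[X]) : cEh F L g = cE L g := rfl

theorem cEh_C [IsScalarTower F (RatFunc F) L] (c : F) : cEh F L (C c) = algebraMap F L c := St.cE_C c

theorem cEh_inj : Function.Injective (cEh F L) :=
  (algebraMap (RatFunc F) L).injective.comp (IsFractionRing.injective F[X] (RatFunc F))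

/-- the order of the pole of `X` -/
noncomputable def pX (P : Place F L) : ℤ := max (- P.ord (cEh F L X)) 0

theorem pX_nonneg (P : Place F L) : 0 ≤ pX P := le_max_right _ _

theorem loc_X (P : Place F L) : Loc P (pX P) (cEh F L X) := by
  right
  have := le_max_left (- P.ord (cEh F L X)) 0
  unfold pX
  omega

theorem loc_cE [IsScalarTower F (RatFunc F) L] (P : Place F L) {g : F[X]} {d : ℕ} (hg : g.natDegree ≤ d) :
    Loc P (d * pX P) (cEh F L g) := by
  rw [g.as_sum_range_C_mul_X_pow' (Nat.lt_succ_of_le hg), map_sum]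
  apply Loc.sum
  intro i hi
  rw [Finset.mem_range] at hi
  rw [map_mul, map_pow, cEh_C]
  refine ((Loc.const (P := P) _).mul ((loc_X P).pow i)).mono ?_
  rw [zero_add]
  exact mul_le_mul_of_nonneg_right (by exact_mod_cast Nat.lt_succ_iff.1 hi) (pX_nonneg P)

theorem pow_eq {f : F[X][X]} (hf : f.Monic) {y : L} (hy : (f.map (cEh F L)).eval y = 0) :
    y ^ f.natDegree = - ∑ i ∈ Finset.range f.natDegree, cEh F L (f.coeff i) * y ^ i := by
  rw [eval_eq_sum_range, hf.natDegree_map, Finset.sum_range_succ, coeff_map, hf.coeff_natDegree,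
    map_one, one_mul] at hy
  rw [eq_neg_iff_add_eq_zero, add_comm, ← hy]
  congr 1
  exact Finset.sum_congr rfl fun i _ => by rw [coeff_map]

theorem loc_y [IsScalarTower F (RatFunc F) L] {f : F[X][X]} {d : ℕ} (hf : f.Monic)
    (hd : ∀ i, (f.coeff i).natDegree ≤ d) {y : L} (hy : (f.map (cEh F L)).eval y = 0) (P : Place F L) :
    Loc P (d * pX P) y := by
  by_contra hcon
  unfold Loc at hcon
  push Not at hcon
  obtain ⟨hy0, hlt⟩ := hcon
  have hpow := pow_eq hf hy
  set n := f.natDegree with hn
  have hp0 := pX_nonneg P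
  rcases Nat.eq_zero_or_pos n with h0 | h0
  · rw [h0, pow_zero, Finset.range_zero, Finset.sum_empty, neg_zero] at hpow
    exact one_ne_zero hpow
  obtain ⟨b, hb⟩ : ∃ b : ℤ, b = - P.ord y := ⟨_, rfl⟩
  have hby : Loc P b y := Or.inr (by omega)
  have hb1 : d * pX P < b := by omega
  have hdp : 0 ≤ (d : ℤ) * pX P := by positivity
  have h1 : Loc P (d * pX P + (n - 1 : ℕ) * b) (y ^ n) := by
    rw [hpow]
    apply Loc.neg
    apply Loc.sum
    intro i hi
    rw [Finset.mem_range] at hi
    refine ((loc_cE P (hd i)).mul (hby.pow i)).mono ?_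
    have : (i : ℤ) * b ≤ ((n - 1 : ℕ) : ℤ) * b := by
      apply mul_le_mul_of_nonneg_right _ (by omega)
      exact_mod_cast (by omega : i ≤ n - 1)
    omega
  rcases h1 with h1 | h1
  · exact hy0 (pow_eq_zero_iff (by omega) |>.1 h1)
  · rw [P.ord_pow] at h1
    have e : ((n - 1 : ℕ) : ℤ) = (n : ℤ) - 1 := by omega
    rw [e] at h1
    have e2 : P.ord y = - b := by omega
    rw [e2] at h1
    nlinarith

end

section
variable {F L : Type} [Field F] [PerfectField F] [Field L] [Algebra F L] [Algebra (RatFunc F) L]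
  [IsScalarTower F (RatFunc F) L] [FiniteDimensional (RatFunc F) L] [Algebra.IsSeparable (RatFunc F) L]
  [IsFF F L]

theorem polar_X_apply (P : Place F L) : polar (k := F) (cEh F L X) P = pX P := by
  rw [polar_apply]
  rfl

theorem ddeg_polar_X : ddeg (polar (k := F) (cEh F L X)) = finrank (RatFunc F) L := by
  haveI := isFF_ratFunc F
  have h1 : polar (k := F) (cEh F L X) = con F (RatFunc F) L (polar (k := F) (RatFunc.X : RatFunc F)) := by
    ext w
    rw [con_apply, polar_apply, polar_apply]
    have h2 := (over_und (F := RatFunc F) w).2 RatFunc.X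
    have h3 : cEh F L X = algebraMap (RatFunc F) L RatFunc.X := by
      unfold cEh
      rw [RingHom.comp_apply, RatFunc.algebraMap_X]
    rw [h3, h2, mul_max_of_nonneg _ _ (by positivity), mul_zero, mul_neg]
  rw [h1, ddeg_con, ddeg_polar_gen RatFunc.adjoin_X, mul_one]

theorem mem_LL_y {f : F[X][X]} {d : ℕ} (hf : f.Monic)
    (hd : ∀ i, (f.coeff i).natDegree ≤ d) {y : L} (hy : (f.map (cEh F L)).eval y = 0) {i r : ℕ}
    (hir : i * d ≤ r) : y ^ i ∈ LL (k := F) (r • polar (k := F) (cEh F L X)) := by
  rw [mem_LL_iff_Loc]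
  intro P
  rw [Finsupp.smul_apply, polar_X_apply, nsmul_eq_mul]
  refine ((loc_y hf hd hy P).pow i).mono ?_
  rw [← mul_assoc]
  exact mul_le_mul_of_nonneg_right (by exact_mod_cast hir) (pX_nonneg P)

theorem lin_indep {n : ℕ} {y : L} (hli : LinearIndependent (RatFunc F) (fun i : Fin n => y ^ (i : ℕ))) :
    LinearIndependent F (fun p : ℕ × Fin n => (cEh F L X) ^ p.1 * y ^ (p.2 : ℕ)) := by
  have hX : LinearIndependent F (fun j : ℕ => (RatFunc.X : RatFunc F) ^ j) := by
    have h1 := (Polynomial.basisMonomials F).linearIndependent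
    have h2 := h1.map' (IsScalarTower.toAlgHom F F[X] (RatFunc F)).toLinearMap (by
      rw [LinearMap.ker_eq_bot]
      exact IsFractionRing.injective F[X] (RatFunc F))
    have h3 : (fun j : ℕ => (RatFunc.X : RatFunc F) ^ j) =
        ⇑(IsScalarTower.toAlgHom F F[X] (RatFunc F)).toLinearMap ∘ ⇑(Polynomial.basisMonomials F) := by
      funext j
      simp [← Polynomial.X_pow_eq_monomial, RatFunc.algebraMap_X]
    rw [h3]
    exact h2
  have h1 := linearIndependent_smul hX hli
  convert h1 using 2 with p
  try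
    rw [Algebra.smul_def, map_pow]
    congr 2

theorem ell_zero_le [Finite F] (hconst : ∀ a : L, IsAlgebraic F a → a ∈ (algebraMap F L).range) :
    ell (0 : Place F L →₀ ℤ) ≤ 1 := by
  have h1 : LL (k := F) (0 : Place F L →₀ ℤ) ≤ Submodule.span F {(1 : L)} := by
    intro f hf
    by_cases hf0 : f = 0
    · rw [hf0]; exact Submodule.zero_mem _
    rw [mem_LL' hf0, add_zero] at hf
    have h2 : divisor F f = 0 := by
      by_contra hne
      have h3 : ∃ P, divisor F f P ≠ 0 := by
        by_contra hcon
        push Not at hcon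
        exact hne (Finsupp.ext hcon)
      obtain ⟨P, hP⟩ := h3
      have h4 := le_ddeg hf P
      rw [ddeg_divisor] at h4
      have h5 : (0 : ℤ) ≤ divisor F f P := hf P
      have h6 : (0 : ℤ) < P.deg := by exact_mod_cast deg_pos P
      have h7 : 0 < divisor F f P := lt_of_le_of_ne h5 (Ne.symm hP)
      nlinarith
    have h3 := hconst f (Pool.Agent.H455R3.ZT.isAlgebraic_of_divisor hf0 h2)
    obtain ⟨c, hc⟩ := h3
    rw [Submodule.mem_span_singleton]
    exact ⟨c, by rw [← hc, Algebra.smul_def, mul_one]⟩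
  have h2 := Submodule.finrank_mono h1
  have h3 : finrank F (Submodule.span F {(1 : L)}) ≤ 1 := by
    have := finrank_span_le_card (R := F) ({(1 : L)} : Set L)
    simpa using this
  unfold ell
  omega

/-- the zeta numerator of the function field of a plane curve has bounded degree -/
theorem exists_num_bound [Finite F] {f : F[X][X]} {d n : ℕ} (hf : f.Monic) (hn : 0 < n)
    (hd : ∀ i, (f.coeff i).natDegree ≤ d) {y : L} (hy : (f.map (cEh F L)).eval y = 0)
    (hconst : ∀ a : L, IsAlgebraic F a → a ∈ (algebraMap F L).range)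
    (hfin : finrank (RatFunc F) L = n)
    (hli : LinearIndependent (RatFunc F) (fun i : Fin n => y ^ (i : ℕ))) :
    ∃ P : ℤ[X], IsZetaNum F L P ∧ P.natDegree ≤ (n * d * n + 1) * (n + 1) + 1 := by
  have hx0 : cEh F L X ≠ 0 := by
    rw [← map_zero (cEh F L)]
    exact fun h => X_ne_zero (cEh_inj h)
  have h1 := lower_expl (k := F) hx0 (n := n) (r := n * d) (fun i : Fin n => y ^ (i : ℕ)) (lin_indep hli)
    (fun i => mem_LL_y hf hd hy (Nat.mul_le_mul_right _ i.2.le))
  have h2 := ell_zero_le (F := F) (L := L) hconst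
  obtain ⟨γ, h3, h4, h5⟩ := riemann_expl (k := F) hx0 (n := n) (c := n * d * n) hn
    (by rw [ddeg_polar_X, hfin]) (fun m => by
      have := h1 m
      push_cast at this ⊢
      exact this) h2
  refine exists_num_expl F L hconst γ ((n * d * n + 1) * (n + 1)) ?_ h5
  have h6 : n * d * n ≤ (n * d * n + 1) * (n + 1) := by nlinarith [Nat.zero_le (n * d * n * n)]
  have h7 : ((n * d * n : ℕ) : ℤ) ≤ (((n * d * n + 1) * (n + 1) : ℕ) : ℤ) := by exact_mod_cast h6
  omega

end

end Pool.Agent.R410.PW
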