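import Pool.Agent.R410.PW.Val

/-! The number of points of a plane curve over the large finite fields, from Bombieri's bound. -/

set_option autoImplicit false
set_option linter.all false

open Module FF Pool.Agent.H525R3.FFp Pool.Agent.W132.AG Pool.Agent.W493.MX Polynomial

namespace Pool.Agent.R410.PW

/-- the points of the plane curve `f = 0` with coordinates in the field with `Q` elements -/
def Pt {k : Type} [Field k] (f : k[X][X]) (Q : ℕ) : Set (k × k) :=
  {z | z.1 ^ Q = z.1 ∧ z.2 ^ Q = z.2 ∧ evalEval z.1 z.2 f = 0}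

section
variable {k : Type} [Field k]

open Classical in
/-- the points over a given first coordinate -/
noncomputable def Sf (f : k[X][X]) (Q : ℕ) (c : k) : Finset k :=
  (f.map (evalRingHom c)).roots.toFinset.filter (fun b => b ^ Q = b)

theorem mem_Sf {f : k[X][X]} (hf : f.Monic) {Q : ℕ} {c b : k} :
    b ∈ Sf f Q c ↔ b ^ Q = b ∧ evalEval c b f = 0 := by
  classical
  unfold Sf
  rw [Finset.mem_filter, Multiset.mem_toFinset, mem_roots (hf.map _).ne_zero, IsRoot.def,
    ← eval₂_evalRingHom, eval_map]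
  tauto

theorem card_Sf_le {f : k[X][X]} (hf : f.Monic) (Q : ℕ) (c : k) : (Sf f Q c).card ≤ f.natDegree := by
  classical
  unfold Sf
  refine (Finset.card_filter_le _ _).trans ((Multiset.toFinset_card_le _).trans ?_)
  refine (card_roots' _).trans ?_
  rw [hf.natDegree_map]

theorem ncard_Pt {f : k[X][X]} (hf : f.Monic) (Q : ℕ) (A : Finset k) (hA : ∀ c, c ∈ A ↔ c ^ Q = c) :
    (Pt f Q).ncard = ∑ c ∈ A, (Sf f Q c).card := by
  classical
  have h1 : Pt f Q = ↑((A.sigma (fun c => Sf f Q c)).image (fun s => (s.1, s.2))) := by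
    ext ⟨c, b⟩
    simp only [Pt, Set.mem_setOf_eq, Finset.coe_image, Set.mem_image, Finset.mem_coe, Finset.mem_sigma,
      Prod.mk.injEq]
    constructor
    · rintro ⟨h1, h2, h3⟩
      exact ⟨⟨c, b⟩, ⟨(hA c).2 h1, (mem_Sf hf).2 ⟨h2, h3⟩⟩, rfl, rfl⟩
    · rintro ⟨⟨c', b'⟩, ⟨h1, h2⟩, rfl, rfl⟩
      rw [mem_Sf hf] at h2
      exact ⟨(hA _).1 h1, h2.1, h2.2⟩
  rw [h1, Set.ncard_coe_finset, Finset.card_image_of_injOn, Finset.card_sigma]
  rintro ⟨a, b⟩ _ ⟨c, d⟩ _ h
  simp only [Prod.mk.injEq] at h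
  obtain ⟨rfl, rfl⟩ := h
  rfl

/-- the fixed points of the `Q`-power map -/
theorem exists_fixed {k : Type} [Field k] [IsAlgClosed k] (p m : ℕ) [Fact p.Prime] [CharP k p] (hm : m ≠ 0) :
    ∃ A : Finset k, A.card = p ^ m ∧ ∀ c, c ∈ A ↔ c ^ p ^ m = c := by
  classical
  obtain ⟨A, hA, hA'⟩ := mxb_roots (k := k) p m hm
  refine ⟨A, hA, fun c => ⟨hA' c, fun hc => ?_⟩⟩
  by_contra hcA
  have hp : p.Prime := Fact.out
  have h1 : 1 < p ^ m := Nat.one_lt_pow hm hp.one_lt
  have hne : (X ^ p ^ m - X : k[X]) ≠ 0 := FiniteField.X_pow_card_sub_X_ne_zero k h1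
  have h2 : insert c A ⊆ (X ^ p ^ m - X : k[X]).roots.toFinset := by
    intro x hx
    rw [Multiset.mem_toFinset, mem_roots hne, IsRoot.def, eval_sub, eval_pow, eval_X, sub_eq_zero]
    rcases Finset.mem_insert.1 hx with rfl | hx
    · exact hc
    · exact hA' x hx
  have h3 := (Finset.card_le_card h2).trans ((Multiset.toFinset_card_le _).trans (card_roots' _))
  rw [Finset.card_insert_of_notMem hcA, hA, FiniteField.X_pow_card_sub_X_natDegree_eq k h1] at h3
  omega

end

section
variable {k E : Type} [Field k] [IsAlgClosed k] [Field E] [Algebra k E] [Algebra (RatFunc k) E]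
  [IsScalarTower k (RatFunc k) E] [IsFF k E] {f : k[X][X]}

/-- the number of roots fixed by an automorphism -/
noncomputable def fx (f : k[X][X]) (ψ : E ≃+* E) : ℕ := by
  classical
  exact ((Rt f E).filter (fun y => ψ y = y)).card

theorem map_mem_Rt (hf : f.Monic) (ψ : E ≃+* E) (hψ : ∀ i, ψ (cE E (f.coeff i)) = cE E (f.coeff i))
    {y : E} (hy : y ∈ Rt f E) : ψ y ∈ Rt f E := by
  rw [mem_Rt hf] at hy ⊢
  have h1 : (f.map ((algebraMap (RatFunc k) E).comp (algebraMap k[X] (RatFunc k)))).map (ψ : E →+* E) =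
      f.map ((algebraMap (RatFunc k) E).comp (algebraMap k[X] (RatFunc k))) := by
    ext i
    rw [coeff_map, coeff_map]
    exact hψ i
  rw [← h1, eval_map]
  have h2 := congrArg (ψ : E →+* E) hy
  rw [map_zero] at h2
  rw [← h2]
  change eval₂ (ψ : E →+* E) ((ψ : E →+* E) y) _ = _
  rw [eval₂_hom]

/-- the points over a good value of the first coordinate -/
theorem card_Sf_eq (hf : f.Monic) (hs : (f.map (algebraMap k[X] (RatFunc k))).Separable)
    (hE : ((f.map (algebraMap k[X] (RatFunc k))).map (algebraMap (RatFunc k) E)).Splits)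
    (P : Place k E) {c : k} (h : 0 < P.ord (cE E (X - C c : k[X])))
    {A B : k[X][X]} {D : k[X]} (hAB : A * f + B * derivative f = C D) (hc : D.eval c ≠ 0)
    (ψ : E ≃+* E) (hψ : ∀ i, ψ (cE E (f.coeff i)) = cE E (f.coeff i)) {Q : ℕ} (hF : FrobAt Q ψ P) :
    (Sf f Q c).card = fx f ψ := by
  classical
  have hinj := vr_inj hf hs hE P h hAB hc
  have hψv : ∀ y : Rt f E, vr hf P h ⟨ψ y.1, map_mem_Rt hf ψ hψ y.2⟩ = vr hf P h y ^ Q := by
    intro y
    apply (algebraMap k P.RF).injective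
    rw [map_pow]
    unfold vr
    rw [algebraMap_vh, algebraMap_vh]
    exact (hF y.1 (reg_Rt hf P h y.2)).2
  have h1 : Sf f Q c = ((Finset.univ : Finset (Rt f E)).filter (fun y => ψ y.1 = y.1)).image (vr hf P h) := by
    ext b
    rw [mem_Sf hf, Finset.mem_image, evalEval_eq, prod_vr hf hs hE P h, eval_prod, Finset.prod_eq_zero_iff]
    constructor
    · rintro ⟨h1, y, -, hy⟩
      rw [eval_sub, eval_X, eval_C, sub_eq_zero] at hy
      refine ⟨y, ?_, hy.symm⟩
      rw [Finset.mem_filter]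
      refine ⟨Finset.mem_univ _, ?_⟩
      have h2 := hψv y
      rw [← hy, h1, hy] at h2
      exact congrArg Subtype.val (hinj h2)
    · rintro ⟨y, hy, rfl⟩
      rw [Finset.mem_filter] at hy
      refine ⟨?_, y, Finset.mem_univ _, ?_⟩
      · rw [← hψv y]
        congr 1
        exact Subtype.ext hy.2
      · rw [eval_sub, eval_X, eval_C, sub_self]
  rw [h1, Finset.card_image_of_injective _ hinj]
  unfold fx
  rw [← Finset.card_image_of_injective _ Subtype.val_injective]
  congr 1
  ext y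
  simp only [Finset.mem_image, Finset.mem_filter, Finset.mem_univ, true_and, Subtype.exists, exists_and_left,
    exists_prop, exists_eq_right_right]
  tauto

/-- a root is mapped to a root by `1/n` of the automorphisms -/
theorem sum_fx (hf : f.Monic) (hn : 0 < f.natDegree) (hs : (f.map (algebraMap k[X] (RatFunc k))).Separable)
    (hE : ((f.map (algebraMap k[X] (RatFunc k))).map (algebraMap (RatFunc k) E)).Splits)
    [FiniteDimensional (RatFunc k) E] [IsGalois (RatFunc k) E]
    (hirr : Irreducible (f.map (algebraMap k[X] (RatFunc k)))) [Fintype (E ≃ₐ[RatFunc k] E)]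
    (Ψ : E ≃+* E) (hΨ : ∀ i, Ψ (cE E (f.coeff i)) = cE E (f.coeff i)) :
    ∑ τ : E ≃ₐ[RatFunc k] E, fx f (Ψ * τ.toRingEquiv) = Fintype.card (E ≃ₐ[RatFunc k] E) := by
  classical
  let G := E ≃ₐ[RatFunc k] E
  have hτ : ∀ (τ : G) (i : ℕ), τ (cE E (f.coeff i)) = cE E (f.coeff i) := fun τ i => τ.commutes _
  have hτR : ∀ (τ : G) (y : E), y ∈ Rt f E → τ y ∈ Rt f E := fun τ y hy =>
    map_mem_Rt hf τ.toRingEquiv (hτ τ) hy
  have hΨ' : ∀ i, Ψ.symm (cE E (f.coeff i)) = cE E (f.coeff i) := by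
    intro i
    rw [RingEquiv.symm_apply_eq, hΨ]
  -- transitivity
  have htr : ∀ y ∈ Rt f E, ∀ y' ∈ Rt f E, ∃ σ : G, σ y = y' := by
    intro y hy y' hy'
    have hroot : ∀ z ∈ Rt f E, aeval z (f.map (algebraMap k[X] (RatFunc k))) = 0 := by
      intro z hz
      rw [mem_Rt hf] at hz
      rw [aeval_def, ← eval_map, Polynomial.map_map]
      exact hz
    have hmin : minpoly (RatFunc k) y = f.map (algebraMap k[X] (RatFunc k)) :=
      (minpoly.eq_of_irreducible_of_monic hirr (hroot y hy) (hf.map _)).symm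
    have hmin' : minpoly (RatFunc k) y' = f.map (algebraMap k[X] (RatFunc k)) :=
      (minpoly.eq_of_irreducible_of_monic hirr (hroot y' hy') (hf.map _)).symm
    have h1 := hroot y hy
    rw [← hmin'] at h1
    obtain ⟨σ, hσ⟩ := minpoly.exists_algEquiv_of_root (Algebra.IsAlgebraic.isAlgebraic y') h1
    exact ⟨σ, hσ⟩
  have hcount : ∀ y ∈ Rt f E, ∀ y' ∈ Rt f E,
      f.natDegree * (Finset.univ.filter (fun τ : G => τ y = y')).card = Fintype.card G := by
    intro y hy y' hy'
    have h1 : ∀ z ∈ Rt f E, (Finset.univ.filter (fun τ : G => τ y = z)).card =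
        (Finset.univ.filter (fun τ : G => τ y = y')).card := by
      intro z hz
      obtain ⟨σ, hσ⟩ := htr z hz y' hy'
      refine Finset.card_bij' (fun τ _ => σ * τ) (fun τ _ => σ⁻¹ * τ) ?_ ?_ ?_ ?_
      · intro τ h
        rw [Finset.mem_filter] at h ⊢
        refine ⟨Finset.mem_univ _, ?_⟩
        rw [AlgEquiv.mul_apply, h.2, hσ]
      · intro τ h
        rw [Finset.mem_filter] at h ⊢
        refine ⟨Finset.mem_univ _, ?_⟩
        rw [AlgEquiv.mul_apply, h.2, ← hσ, ← AlgEquiv.mul_apply, inv_mul_cancel, AlgEquiv.one_apply]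
      · intro τ _
        exact inv_mul_cancel_left _ _
      · intro τ _
        exact mul_inv_cancel_left _ _
    have h2 : Fintype.card G = ∑ z ∈ Rt f E, (Finset.univ.filter (fun τ : G => τ y = z)).card := by
      rw [← Finset.card_univ]
      exact Finset.card_eq_sum_card_fiberwise (fun τ _ => hτR τ y hy)
    rw [h2, Finset.sum_congr rfl h1, Finset.sum_const, card_Rt hf hs hE, smul_eq_mul]
  have h3 : ∀ τ : G, fx f (Ψ * τ.toRingEquiv) = ∑ y ∈ Rt f E, if τ y = Ψ.symm y then 1 else 0 := by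
    intro τ
    unfold fx
    rw [Finset.card_filter]
    refine Finset.sum_congr rfl fun y _ => ?_
    congr 1
    rw [RingAut.mul_apply, eq_iff_iff]
    constructor
    · intro h
      have : Ψ (τ y) = y := h
      rw [RingEquiv.eq_symm_apply]
      exact this
    · intro h
      rw [RingEquiv.eq_symm_apply] at h
      exact h
  have h4 : ∑ τ : G, fx f (Ψ * τ.toRingEquiv) =
      ∑ y ∈ Rt f E, (Finset.univ.filter (fun τ : G => τ y = Ψ.symm y)).card := by
    rw [Finset.sum_congr rfl fun τ _ => h3 τ, Finset.sum_comm]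
    refine Finset.sum_congr rfl fun y _ => ?_
    rw [Finset.card_filter]
  apply Nat.eq_of_mul_eq_mul_left hn
  rw [h4, Finset.mul_sum, Finset.sum_congr rfl fun y hy => hcount y hy _ (map_mem_Rt hf Ψ.symm hΨ' hy),
    Finset.sum_const, card_Rt hf hs hE, smul_eq_mul]

end

end Pool.Agent.R410.PW
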