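import Pool.Agent.R410.PW.Num
import Pool.Agent.H341R2.RootBound

/-! The logarithmic derivative of the zeta function of a function field over a finite field. -/

set_option autoImplicit false
set_option linter.all false

open PowerSeries FF Module

namespace Pool.Agent.R410.PW

open Pool.Agent.W343.BSD

/-- the Euler operator -/
noncomputable def th (f : PowerSeries ℤ) : PowerSeries ℤ := X * d⁄dX ℤ f

theorem coeff_th (f : PowerSeries ℤ) (n : ℕ) : coeff n (th f) = n * coeff n f := by
  unfold th
  rcases n with _ | n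
  · rw [coeff_zero_X_mul]; simp
  · rw [coeff_succ_X_mul, coeff_derivative]
    push_cast
    ring

theorem th_mul (f g : PowerSeries ℤ) : th (f * g) = th f * g + f * th g := by
  unfold th
  rw [Derivation.leibniz, smul_eq_mul, smul_eq_mul]
  ring

/-- the series of one factor -/
noncomputable def G1 (d : ℕ) : PowerSeries ℤ := PowerSeries.mk fun m => if m ≠ 0 ∧ d ∣ m then (d : ℤ) else 0

theorem one_sub_mul_G1 {d : ℕ} (hd : d ≠ 0) : th (1 - X ^ d) = - ((1 - X ^ d) * G1 d) := by
  ext m
  rw [coeff_th, map_neg, sub_mul, one_mul, map_sub, map_sub, coeff_X_pow_mul', coeff_one, coeff_X_pow]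
  unfold G1
  rw [coeff_mk]
  by_cases hm : m = 0
  · subst hm
    simp [hd, Ne.symm hd]
  rw [if_neg hm, zero_sub]
  by_cases hdm : d ≤ m
  · rw [if_pos hdm, coeff_mk]
    have e : d ∣ m - d ↔ d ∣ m := by
      rw [Nat.dvd_sub_iff_left hdm dvd_rfl]
    by_cases hmd : m = d
    · subst hmd
      simp [hd]
    · rw [if_neg hmd]
      have h1 : m - d ≠ 0 := by omega
      simp only [ne_eq, hm, h1, not_false_eq_true, true_and, e]
      split_ifs <;> simp
  · rw [if_neg hdm]
    have h1 : ¬ d ∣ m := fun h => hdm (Nat.le_of_dvd (Nat.pos_of_ne_zero hm) h)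
    rw [if_neg (show ¬ m = d by omega), if_neg (fun h => h1 h.2)]
    simp

theorem th_prod {ι : Type} (d : ι → ℕ) (hd : ∀ v, d v ≠ 0) (s : Finset ι) :
    th (∏ v ∈ s, (1 - X ^ d v)) = - ((∏ v ∈ s, (1 - X ^ d v)) * ∑ v ∈ s, G1 (d v)) := by
  classical
  induction s using Finset.induction_on with
  | empty =>
    rw [Finset.prod_empty, Finset.sum_empty, mul_zero, neg_zero]
    ext n
    rw [coeff_th, coeff_one, map_zero]
    split_ifs with h
    · rw [h]; simp
    · simp
  | insert a s ha ih =>
    rw [Finset.prod_insert ha, Finset.sum_insert ha, th_mul, ih, one_sub_mul_G1 (hd a)]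
    ring

section
variable {ι : Type} (d : ι → ℕ) (hd : ∀ v, d v ≠ 0) (hfin : ∀ k, {v | d v ≤ k}.Finite)

/-- the sum of the degrees which divide `m` -/
noncomputable def NN (m : ℕ) : ℕ := by
  classical
  exact ∑ v ∈ (hfin m).toFinset.filter (fun v => d v ∣ m), d v

include hd in
theorem th_euler : th (eulerProd d (fun v => (1 - X ^ d v : PowerSeries ℤ))) =
    - (eulerProd d (fun v => (1 - X ^ d v : PowerSeries ℤ)) *
      PowerSeries.mk fun m => if m = 0 then 0 else (NN d hfin m : ℤ)) := by
  classical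
  have hmod' : ∀ v, (X : PowerSeries ℤ) ^ d v ∣ (1 - X ^ d v) - 1 := by
    intro v
    have : (1 - X ^ d v : PowerSeries ℤ) - 1 = -(X ^ d v) := by ring
    rw [this]
    exact (dvd_neg).2 dvd_rfl
  ext n
  have h1 := eulerProd_mod hfin hmod' n (hfin n).toFinset (fun i hi => by
    rw [Set.Finite.mem_toFinset]; exact hi)
  rw [X_pow_dvd_iff] at h1
  have h2 : ∀ i, i ≤ n → coeff i (eulerProd d (fun v => (1 - X ^ d v : PowerSeries ℤ))) =
      coeff i (∏ v ∈ (hfin n).toFinset, (1 - X ^ d v : PowerSeries ℤ)) := by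
    intro i hi
    have := h1 i (by omega)
    rwa [map_sub, sub_eq_zero] at this
  rw [coeff_th, h2 n le_rfl, ← coeff_th, th_prod d hd, map_neg, map_neg, coeff_mul, coeff_mul]
  congr 1
  refine Finset.sum_congr rfl fun ij hij => ?_
  rw [Finset.HasAntidiagonal.mem_antidiagonal] at hij
  rw [h2 ij.1 (by omega), map_sum, coeff_mk]
  congr 1
  unfold G1
  by_cases h0 : ij.2 = 0
  · rw [if_pos h0]
    refine Finset.sum_eq_zero fun v _ => ?_
    rw [coeff_mk, if_neg]
    exact fun h => h.1 h0
  · rw [if_neg h0]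
    unfold NN
    push_cast
    rw [Finset.sum_filter]
    have h3 : (hfin ij.2).toFinset ⊆ (hfin n).toFinset := by
      intro v hv
      rw [Set.Finite.mem_toFinset] at hv ⊢
      have : d v ≤ ij.2 := hv
      change d v ≤ n
      omega
    rw [← Finset.sum_subset h3]
    · refine Finset.sum_congr rfl fun v _ => ?_
      rw [coeff_mk]
      simp only [ne_eq, h0, not_false_eq_true, true_and]
    · intro v _ hv
      rw [coeff_mk, if_neg]
      rintro ⟨h4, h5⟩
      apply hv
      rw [Set.Finite.mem_toFinset]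
      exact Nat.le_of_dvd (Nat.pos_of_ne_zero h0) h5

end

theorem th_lin (a : ℤ) : th (1 - C a * X) = - ((1 - C a * X) * PowerSeries.mk fun m => if m = 0 then 0 else a ^ m) := by
  ext m
  have e : (1 - C a * X) * PowerSeries.mk (fun m => if m = 0 then 0 else a ^ m) =
      PowerSeries.mk (fun m => if m = 0 then 0 else a ^ m) -
        C a * (X * PowerSeries.mk (fun m => if m = 0 then 0 else a ^ m)) := by ring
  rw [coeff_th, map_neg, e, map_sub, map_sub, coeff_C_mul, coeff_C_mul, coeff_one, coeff_X, coeff_mk]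
  rcases m with _ | m
  · rw [coeff_zero_X_mul]; simp
  · rw [coeff_succ_X_mul, coeff_mk]
    rcases m with _ | m
    · simp
    · simp only [Nat.add_eq_zero_iff, one_ne_zero, and_false, if_false, Nat.add_eq_right]
      simp
      ring

theorem newton (k F : Type) [Field k] [Finite k] [Field F] [Algebra k F] [FF.IsFF k F]
    (P : Polynomial ℤ) (hP : IsZetaNum k F P) :
    P.coeff 0 = 1 ∧ ∀ n : ℕ, (n : ℤ) * P.coeff n = ∑ m ∈ Finset.Icc 1 n, P.coeff (n - m) *
      ((NN (fun v : FF.Place k F => v.deg) (fun n => H107R3.ZT.places_finite n) m : ℤ) -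
        1 - (Nat.card k : ℤ) ^ m) := by
  classical
  set d : FF.Place k F → ℕ := fun v => v.deg with hd
  have hd0 : ∀ v, d v ≠ 0 := fun v => (Pool.Agent.H525R3.FFp.deg_pos v).ne'
  have hfin : ∀ n, {v | d v ≤ n}.Finite := fun n => H107R3.ZT.places_finite n
  set q : ℤ := (Nat.card k : ℤ) with hq
  set Ep := eulerProd d (fun v => (1 - X ^ d v : PowerSeries ℤ)) with hEp
  have hPE : (P : PowerSeries ℤ) * Ep = (1 - X) * (1 - C q * X) := hP
  set W : PowerSeries ℤ := (1 - X) * (1 - C q * X) with hW
  have hWne : W ≠ 0 := by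
    intro h
    have := congrArg (coeff 0) h
    rw [hW] at this
    simp at this
  have hEne : Ep ≠ 0 := by
    intro h
    apply hWne
    rw [← hPE, h, mul_zero]
  have h0 : coeff 0 Ep = 1 := by
    rw [hEp, coeff_eulerProd hfin]
    have : (hfin 0).toFinset = ∅ := by
      rw [Finset.eq_empty_iff_forall_notMem]
      intro v hv
      rw [Set.Finite.mem_toFinset] at hv
      exact hd0 v (Nat.le_zero.1 hv)
    rw [this, Finset.prod_empty, coeff_one, if_pos rfl]
  have hP0 : P.coeff 0 = 1 := by
    have h1 := congrArg (coeff 0) hPE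
    rw [hW] at h1
    simp only [coeff_zero_eq_constantCoeff, map_mul] at h1 h0
    rw [h0, mul_one] at h1
    simpa using h1
  refine ⟨hP0, ?_⟩
  set NNs : PowerSeries ℤ := PowerSeries.mk fun m => if m = 0 then 0 else (NN d hfin m : ℤ) with hNNs
  set H1 : PowerSeries ℤ := PowerSeries.mk fun m => if m = 0 then 0 else (1 : ℤ) ^ m with hH1
  set Hq : PowerSeries ℤ := PowerSeries.mk fun m => if m = 0 then 0 else q ^ m with hHq
  have h1 : th W = - (W * (H1 + Hq)) := by
    have e1 : (1 - X : PowerSeries ℤ) = 1 - C (1 : ℤ) * X := by rw [map_one, one_mul]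
    rw [hW, th_mul, e1, th_lin, th_lin]
    ring
  have h2 : th Ep = - (Ep * NNs) := th_euler d hd0 hfin
  have h3 : th (P : PowerSeries ℤ) = (P : PowerSeries ℤ) * (NNs - H1 - Hq) := by
    have h4 := congrArg th hPE
    rw [th_mul, h2, h1, ← hPE] at h4
    apply mul_right_cancel₀ hEne
    linear_combination h4
  intro n
  have h4 := congrArg (coeff n) h3
  rw [coeff_th, Polynomial.coeff_coe, mul_comm (P : PowerSeries ℤ), coeff_mul,
    Finset.Nat.sum_antidiagonal_eq_sum_range_succ_mk] at h4
  rw [h4]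
  have h5 : (Finset.range (n + 1)).filter (fun m => m ≠ 0) = Finset.Icc 1 n := by
    ext m
    simp only [Finset.mem_filter, Finset.mem_range, Finset.mem_Icc]
    omega
  rw [← h5, Finset.sum_filter]
  refine Finset.sum_congr rfl fun m hm => ?_
  simp only [map_sub, hNNs, hH1, hHq, coeff_mk, Polynomial.coeff_coe, one_pow]
  by_cases hm0 : m = 0
  · simp [hm0]
  · rw [if_neg hm0, if_neg hm0, if_neg hm0, if_pos hm0]
    ring

/-- the bound for the number of places of degree one -/
theorem bound_one (k F : Type) [Field k] [Finite k] [Field F] [Algebra k F] [FF.IsFF k F]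
    (P : Polynomial ℤ) (hP : IsZetaNum k F P) {M : ℕ} (hM : P.natDegree ≤ M) (r C : ℝ) (hr : 0 < r)
    (hC : 0 ≤ C) (h : ∀ m : ℕ, 1 ≤ m →
      |(NN (fun v : FF.Place k F => v.deg) (fun n => H107R3.ZT.places_finite n) m : ℝ) -
        1 - (Nat.card k : ℝ) ^ m| ≤ C * r ^ m) :
    |(NN (fun v : FF.Place k F => v.deg) (fun n => H107R3.ZT.places_finite n) 1 : ℝ) -
        1 - (Nat.card k : ℝ)| ≤ M * r := by
  obtain ⟨h0, h1⟩ := newton k F P hP
  let a : Polynomial ℂ := P.map (Int.castRingHom ℂ)
  let S : ℕ → ℂ := fun m => ((NN (fun v : FF.Place k F => v.deg) (fun n => H107R3.ZT.places_finite n) m : ℤ) -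
        1 - (Nat.card k : ℤ) ^ m : ℤ)
  have hSn : ∀ m, ‖S m‖ = |(NN (fun v : FF.Place k F => v.deg) (fun n => H107R3.ZT.places_finite n) m : ℝ) -
        1 - (Nat.card k : ℝ) ^ m| := by
    intro m
    simp only [S]
    rw [Complex.norm_intCast]
    push_cast
    rfl
  have key := Pool.Agent.H341R2.Sharp.coeff_one_bound a (by simp [a, h0]) S r C hr hC
    (fun m hm => by rw [hSn]; exact h m hm) (by
      intro n
      have h2 : (((n : ℤ) * P.coeff n : ℤ) : ℂ) = ((∑ m ∈ Finset.Icc 1 n, P.coeff (n - m) *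
        ((NN (fun v : FF.Place k F => v.deg) (fun n => H107R3.ZT.places_finite n) m : ℤ) -
        1 - (Nat.card k : ℤ) ^ m) : ℤ) : ℂ) := by rw [h1 n]
      rw [Int.cast_mul, Int.cast_sum] at h2
      simp only [a, Polynomial.coeff_map, S, eq_intCast]
      rw [Int.cast_natCast] at h2
      rw [h2]
      refine Finset.sum_congr rfl fun m _ => ?_
      rw [Int.cast_mul]) M ((Polynomial.natDegree_map_le).trans hM)
  have h2 : a.coeff 1 = S 1 := by
    have h3 := h1 1
    rw [Finset.Icc_self, Finset.sum_singleton, Nat.sub_self, h0, one_mul, Nat.cast_one, one_mul] at h3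
    simp only [a, Polynomial.coeff_map, h3, S, eq_intCast]
  rw [h2, hSn, pow_one] at key
  exact key

end Pool.Agent.R410.PW
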