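import Pool.Agent.W343.BSD.Zeta

/-! Riemann's theorem with an explicit bound. -/

set_option autoImplicit false
set_option linter.all false
set_option linter.overlappingInstances false

open Module IsDedekindDomain IntermediateField FF Pool.Agent.H525R3.FFp

namespace Pool.Agent.R410.PW

section
variable {k K : Type} [Field k] [Field K] [Algebra k K] [PerfectField k] [IsFF k K]

theorem convex {x : K} (hx0 : x ≠ 0) (m : ℕ) :
    2 * ell ((m + 1) • polar (k := k) x) ≤ ell ((m + 2) • polar (k := k) x) + ell (m • polar (k := k) x) := by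
  classical
  set B := polar (k := k) x with hB
  let U := LL (k := k) ((m + 1) • B)
  let μ : K →ₗ[k] K := LinearMap.mulLeft k x
  have hμ : Function.Injective μ := fun a b h => mul_left_cancel₀ hx0 h
  have hBP : ∀ P : Place k K, B P = max (- P.ord x) 0 := fun P => by rw [hB, polar_apply]
  have hsmul : ∀ (n : ℕ) (P : Place k K), (n • B) P = n * max (- P.ord x) 0 := by
    intro n P
    rw [Finsupp.smul_apply, hBP, nsmul_eq_mul]
  have h1 : U ⊔ U.map μ ≤ LL (k := k) ((m + 2) • B) := by
    rw [sup_le_iff]
    constructor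
    · intro f hf
      rw [mem_LL] at hf ⊢
      rcases hf with hf | hf
      · exact Or.inl hf
      · right
        intro P
        have := hf P
        rw [hsmul] at this ⊢
        push_cast at this ⊢
        have h2 : 0 ≤ max (- P.ord x) 0 := le_max_right _ _
        nlinarith
    · rintro _ ⟨f, hf, rfl⟩
      change x * f ∈ _
      rw [SetLike.mem_coe, mem_LL] at hf
      rw [mem_LL]
      rcases hf with rfl | hf
      · left; rw [mul_zero]
      by_cases hf0 : f = 0
      · left; rw [hf0, mul_zero]
      right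
      intro P
      have := hf P
      rw [hsmul] at this ⊢
      push_cast at this ⊢
      rw [P.ord_mul hx0 hf0]
      have h2 : - P.ord x ≤ max (- P.ord x) 0 := le_max_left _ _
      nlinarith
  have h2 : U ⊓ U.map μ ≤ (LL (k := k) (m • B)).map μ := by
    rintro g ⟨hg, ⟨f, hf, rfl⟩⟩
    refine ⟨f, ?_, rfl⟩
    rw [SetLike.mem_coe, mem_LL] at hf hg ⊢
    change x * f = 0 ∨ ∀ P : Place k K, - ((m + 1) • B) P ≤ P.ord (x * f) at hg
    by_cases hf0 : f = 0
    · exact Or.inl hf0
    right
    intro P
    have h3 := (hf.resolve_left hf0) P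
    have h4 := (hg.resolve_left (mul_ne_zero hx0 hf0)) P
    rw [P.ord_mul hx0 hf0] at h4
    rw [hsmul] at h3 h4 ⊢
    push_cast at h3 h4 ⊢
    rcases le_total 0 (P.ord x) with h | h
    · rw [max_eq_right (by omega)] at h3 ⊢
      omega
    · rw [max_eq_left (by omega)] at h4 ⊢
      nlinarith
  have h3 := Submodule.finrank_sup_add_finrank_inf_eq U (U.map μ)
  have h4 : finrank k (U.map μ) = finrank k U :=
    (Submodule.equivMapOfInjective μ hμ U).finrank_eq.symm
  have h5 : finrank k ((LL (k := k) (m • B)).map μ) = finrank k (LL (k := k) (m • B)) :=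
    (Submodule.equivMapOfInjective μ hμ _).finrank_eq.symm
  have h6 := Submodule.finrank_mono h1
  haveI : FiniteDimensional k ((LL (k := k) (m • B)).map μ) := inferInstance
  have h7 := Submodule.finrank_mono h2
  rw [h4] at h3
  rw [h5] at h7
  unfold ell
  change 2 * ((finrank k U : ℕ) : ℤ) ≤ _
  omega

theorem lower_expl {x : K} (hx0 : x ≠ 0) {n r : ℕ} (b : Fin n → K)
    (hind : LinearIndependent k (fun p : ℕ × Fin n => x ^ p.1 * b p.2))
    (hb : ∀ i, b i ∈ LL (k := k) (r • polar (k := k) x)) (m : ℕ) :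
    (m : ℤ) * n ≤ ell (m • polar (k := k) x) + r * n := by
  classical
  have hb0 : ∀ i, b i ≠ 0 := fun i => by
    have := hind.ne_zero (0, i)
    simpa using this
  have hmem : ∀ (j m : ℕ) (i : Fin n), r + j ≤ m → x ^ j * b i ∈ LL (m • polar (k := k) x) := by
    intro j m i hjm
    have h1 := hb i
    rw [mem_LL] at h1 ⊢
    right
    intro w
    have h2 := (h1.resolve_left (hb0 i)) w
    rw [w.ord_mul (pow_ne_zero _ hx0) (hb0 i), w.ord_pow]
    rw [Finsupp.smul_apply, polar_apply, nsmul_eq_mul] at h2 ⊢
    have h3 : - w.ord x ≤ max (- w.ord x) 0 := le_max_left _ _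
    have h4 : 0 ≤ max (- w.ord x) 0 := le_max_right _ _
    have h5 : (r : ℤ) + j ≤ m := by exact_mod_cast hjm
    have h6 : (j : ℤ) * (- w.ord x) ≤ j * max (- w.ord x) 0 := mul_le_mul_of_nonneg_left h3 (by positivity)
    have h7 : ((r : ℤ) + j) * max (- w.ord x) 0 ≤ m * max (- w.ord x) 0 := mul_le_mul_of_nonneg_right h5 h4
    nlinarith
  have hlow : ∀ N m : ℕ, r + N ≤ m + 1 → N * n ≤ finrank k (LL (m • polar (k := k) x)) := by
    intro N m hNm
    have h1 : LinearIndependent k (fun p : Fin N × Fin n => x ^ (p.1 : ℕ) * b p.2) := by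
      have := hind.comp (fun p : Fin N × Fin n => ((p.1 : ℕ), p.2)) (by
        rintro ⟨a, b⟩ ⟨c, d⟩ h
        simp only [Prod.mk.injEq] at h
        ext
        · exact h.1
        · exact congrArg Fin.val h.2)
      exact this
    have h2 : ∀ p : Fin N × Fin n, x ^ (p.1 : ℕ) * b p.2 ∈ LL (m • polar (k := k) x) := by
      intro p
      exact hmem _ _ _ (by have := p.1.2; omega)
    let v : Fin N × Fin n → LL (m • polar (k := k) x) := fun p => ⟨_, h2 p⟩
    have h3 : LinearIndependent k v := by
      apply LinearIndependent.of_comp (LL (m • polar (k := k) x)).subtype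
      exact h1
    have h4 := h3.fintype_card_le_finrank
    simpa using h4
  unfold ell
  rcases le_or_gt r m with h | h
  · have := hlow (m + 1 - r) m (by omega)
    have h2 : ((m + 1 - r : ℕ) : ℤ) = m + 1 - r := by omega
    have h3 : ((m + 1 - r : ℕ) : ℤ) * n ≤ finrank k (LL (m • polar (k := k) x)) := by exact_mod_cast this
    rw [h2] at h3
    nlinarith
  · have h1 : (m : ℤ) * n ≤ r * n := by
      apply mul_le_mul_of_nonneg_right _ (by positivity)
      exact_mod_cast h.le
    have : (0 : ℤ) ≤ finrank k (LL (m • polar (k := k) x)) := by positivity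
    omega

/-- Riemann's theorem with an explicit bound -/
theorem riemann_expl {x : K} (hx0 : x ≠ 0) {n c : ℕ} (hn0 : 0 < n)
    (hn : ddeg (polar (k := k) x) = n)
    (hc : ∀ m : ℕ, (m : ℤ) * n ≤ ell (m • polar (k := k) x) + c)
    (h0 : ell (0 : Place k K →₀ ℤ) ≤ 1) :
    ∃ γ : ℤ, γ ≤ c ∧ (∀ D : Place k K →₀ ℤ, ddeg D - γ ≤ ell D) ∧
      ∀ D : Place k K →₀ ℤ, ((c + 1) * (n + 1) : ℕ) ≤ ddeg D → ell D = ddeg D - γ := by
  obtain ⟨γ, N, hγ, hN⟩ := riemann k K
  have hnpos : 0 < (n : ℤ) := by exact_mod_cast hn0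
  set B := polar (k := k) x with hB
  have hB0 : (0 : Place k K →₀ ℤ) ≤ B := polar_nonneg x
  have hphi : ∀ m : ℕ, phi (k := k) (m • B) = m * n - ell (m • B) := by
    intro m
    unfold phi
    rw [ddeg_nsmul, hn]
  have hle : ∀ D : Place k K →₀ ℤ, phi D ≤ γ := by
    intro D
    have := hγ D
    unfold phi
    omega
  have hlarge : ∀ m : ℕ, N ≤ m → phi (k := k) (m • B) = γ := by
    intro m hm
    have h1 : N ≤ ddeg (m • B) := by
      rw [ddeg_nsmul, hn]
      nlinarith
    have := hN _ h1
    unfold phi
    omega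
  have hγc : γ ≤ c := by
    have h1 := hlarge N.toNat (by omega)
    have h2 := hc N.toNat
    rw [hphi] at h1
    omega
  have hmono : ∀ m : ℕ, phi (k := k) (m • B) ≤ phi ((m + 1) • B) := by
    intro m
    apply phi_mono
    rw [add_smul, one_smul]
    exact le_add_of_nonneg_right hB0
  have hconv : ∀ m : ℕ, phi (k := k) ((m + 2) • B) - phi (k := k) ((m + 1) • B) ≤
      phi (k := k) ((m + 1) • B) - phi (k := k) (m • B) := by
    intro m
    have h1 := convex (k := k) hx0 m
    rw [hphi, hphi, hphi]
    push_cast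
    linarith
  have hstop : ∀ m : ℕ, phi (k := k) ((m + 1) • B) = phi (k := k) (m • B) → phi (k := k) (m • B) = γ := by
    intro m hm
    have h1 : ∀ j : ℕ, phi (k := k) ((m + j) • B) = phi (k := k) (m • B) ∧
        phi (k := k) ((m + j + 1) • B) = phi (k := k) (m • B) := by
      intro j
      induction j with
      | zero => exact ⟨rfl, hm⟩
      | succ j ih =>
        refine ⟨ih.2, ?_⟩
        have h2 := hconv (m + j)
        have h3 := hmono (m + j + 1)
        rw [ih.1, ih.2] at h2
        rw [ih.2] at h3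
        have e : m + (j + 1) + 1 = m + j + 2 := by ring
        have e' : m + j + 1 + 1 = m + j + 2 := by ring
        rw [e]
        rw [e'] at h3
        omega
    rw [← (h1 N.toNat).1]
    apply hlarge
    push_cast
    omega
  obtain ⟨M0, hM0, hM0γ⟩ : ∃ M0 : ℕ, M0 ≤ c + 1 ∧ phi (k := k) (M0 • B) = γ := by
    by_contra hcon
    push Not at hcon
    have h1 : ∀ m : ℕ, m ≤ c + 2 → (m : ℤ) - 1 ≤ phi (k := k) (m • B) := by
      intro m
      induction m with
      | zero =>
        intro _
        rw [hphi, zero_smul]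
        push_cast
        linarith
      | succ m ih =>
        intro hm
        have h2 := ih (by omega)
        have h3 := hmono m
        have h4 : phi (k := k) ((m + 1) • B) ≠ phi (k := k) (m • B) := fun h =>
          hcon m (by omega) (hstop m h)
        push_cast
        have h5 : phi (k := k) (m • B) < phi (k := k) ((m + 1) • B) := lt_of_le_of_ne h3 (Ne.symm h4)
        omega
    have h2 := h1 (c + 2) le_rfl
    have h3 := hle ((c + 2) • B)
    push_cast at h2
    omega
  refine ⟨γ, hγc, hγ, ?_⟩
  intro D hD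
  set A := M0 • B with hA
  have hdA : ddeg A = M0 * n := by rw [hA, ddeg_nsmul, hn]
  have h1 : 0 < ell (D - A) := by
    have h2 := hle (D - A)
    unfold phi at h2
    rw [ddeg_sub, hdA] at h2
    have h3 : (M0 : ℤ) * n ≤ (c + 1) * n := by
      apply mul_le_mul_of_nonneg_right _ (by positivity)
      exact_mod_cast hM0
    push_cast at hD
    nlinarith
  obtain ⟨z, hz, hz0⟩ := exists_ne_zero_of_ell_pos h1
  rw [mem_LL' hz0] at hz
  have h2 : A ≤ D + divisor k z := by
    rw [← sub_nonneg]
    have : D + divisor k z - A = divisor k z + (D - A) := by abel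
    rw [this]; exact hz
  have h3 := phi_mono h2
  rw [phi_add_divisor _ hz0, hM0γ] at h3
  have h4 := hle D
  unfold phi at h3 h4
  omega

end

end Pool.Agent.R410.PW
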