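import Pool.Agent.W343.BSD.Zeta
import Pool.Agent.R410.PW.Rie

/-! The zeta function of a function field over a finite field: the degree of the numerator. -/

set_option autoImplicit false
set_option linter.all false

open PowerSeries FF Module

namespace Pool.Agent.R410.PW

open Pool.Agent.W343.BSD

section exact

open Pool.Agent.H525R3.FFp Pool.Agent.H455R3.ZT

theorem exact_count_expl (k F : Type) [Field k] [Finite k] [Field F] [Algebra k F] [FF.IsFF k F]
    (hconst : ∀ a : F, IsAlgebraic k a → a ∈ (algebraMap k F).range) (γ : ℤ) (m0 : ℕ) (hγ0 : γ ≤ m0)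
    (hN0 : ∀ D : FF.Place k F →₀ ℤ, (m0 : ℤ) ≤ ddeg D → ell D = ddeg D - γ) :
    ∀ m : ℕ, m0 ≤ m → 0 ≤ m - γ ∧
      H387R3.ZT.bnum k F m * (Nat.card k - 1) =
        classNumber k F * (Nat.card k ^ (m - γ).toNat - 1) := by
  classical
  have hdeg : ∀ d : ℕ, (∀ v : FF.Place k F, d ∣ v.deg) → d = 1 :=
    H675R3.ZT.taskSch H107R3.ZT.taskUp H142R3.ZTLow.taskLow H123R3.ZT.taskConst k F hconst
  obtain ⟨N, hNdef⟩ : ∃ N : ℤ, N = (m0 : ℤ) := ⟨_, rfl⟩
  have hN : ∀ D : FF.Place k F →₀ ℤ, N ≤ ddeg D → ell D = ddeg D - γ := fun D hD => hN0 D (by omega)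
  obtain ⟨Cl, R, hCl, hR0, hRex, hRun⟩ := exists_reps' k F
  obtain ⟨D1, hD1⟩ := exists_ddeg_one (k := k) (F := F) hdeg
  rw [← hCl]
  intro m hm
  have hmN : N ≤ (m : ℤ) := by omega
  have hmγ : γ ≤ (m : ℤ) := by omega
  refine ⟨by omega, ?_⟩
  have hdm : ∀ c, ddeg (R c + m • D1) = m := by
    intro c
    rw [ddeg_add, hR0, ddeg_nsmul, hD1]; ring
  have hX : ∀ c : Cl, Nat.card {f : LL (R c + m • D1) // f ≠ 0} =
      Nat.card k ^ ((m : ℤ) - γ).toNat - 1 := by
    intro c
    apply card_LL_ne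
    have h1 := hN (R c + m • D1) (by rw [hdm]; exact hmN)
    rw [hdm] at h1
    unfold ell at h1
    omega
  have hfinX : ∀ c : Cl, Finite {f : LL (R c + m • D1) // f ≠ 0} := by
    intro c
    have : Finite (LL (R c + m • D1)) := Module.finite_of_finite k
    infer_instance
  have e1 : ∀ c : Cl, {f : LL (R c + m • D1) // f ≠ 0} ≃
      Fin (Nat.card k ^ ((m : ℤ) - γ).toNat - 1) := fun c => Finite.equivFinOfCardEq (hX c)
  have hcard1 : Nat.card (Σ c : Cl, {f : LL (R c + m • D1) // f ≠ 0}) =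
      Nat.card Cl * (Nat.card k ^ ((m : ℤ) - γ).toNat - 1) := by
    rw [Nat.card_congr ((Equiv.sigmaCongrRight e1).trans (Equiv.sigmaEquivProd _ _)),
      Nat.card_prod, Nat.card_fin]
  -- choice of a class and a function
  have hch : ∀ E : {D : FF.Place k F →₀ ℕ // (D.sum fun v n => n * v.deg) = m},
      ∃ (c : Cl) (f : F), f ≠ 0 ∧ nd E.1 = R c + m • D1 + divisor k f := by
    intro E
    have h1 : ddeg (nd E.1 - m • D1) = 0 := by
      rw [ddeg_sub, ddeg_nd, E.2, ddeg_nsmul, hD1]; ring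
    obtain ⟨c, f, hf, h⟩ := hRex _ h1
    refine ⟨c, f, hf, ?_⟩
    rw [sub_eq_iff_eq_add] at h
    rw [h]; abel
  choose cE fE hfE0 hfE using hch
  have hmem : ∀ (E : {D : FF.Place k F →₀ ℕ // (D.sum fun v n => n * v.deg) = m}) (a : kˣ),
      (a : k) • fE E ∈ LL (R (cE E) + m • D1) := by
    intro E a
    apply Submodule.smul_mem
    rw [mem_LL' (hfE0 E)]
    have h1 := hfE E
    have h2 : divisor k (fE E) + (R (cE E) + m • D1) = nd E.1 := by rw [h1]; abel
    rw [h2]
    intro P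
    simp [nd]
  let Φ : {D : FF.Place k F →₀ ℕ // (D.sum fun v n => n * v.deg) = m} × kˣ →
      (Σ c : Cl, {f : LL (R c + m • D1) // f ≠ 0}) := fun x =>
    ⟨cE x.1, ⟨⟨(x.2 : k) • fE x.1, hmem x.1 x.2⟩, by
      intro h0
      have h1 : (x.2 : k) • fE x.1 = 0 := congrArg Subtype.val h0
      rcases smul_eq_zero.mp h1 with h | h
      · exact x.2.ne_zero h
      · exact hfE0 _ h⟩⟩
  let val : (Σ c : Cl, {f : LL (R c + m • D1) // f ≠ 0}) → Cl × F := fun y => (y.1, (y.2.1 : F))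
  have hval : Function.Injective val := by
    rintro ⟨c, f⟩ ⟨c', f'⟩ h
    obtain ⟨h1, h2⟩ := Prod.mk.inj h
    dsimp only at h1 h2
    subst h1
    have : f = f' := Subtype.ext (Subtype.ext h2)
    rw [this]
  have hΦ : Function.Bijective Φ := by
    constructor
    · rintro ⟨E, a⟩ ⟨E', a'⟩ h
      have h1 := congrArg val h
      obtain ⟨h2, h3⟩ := Prod.mk.inj h1
      dsimp only [Φ] at h2 h3
      have h4 : divisor k (fE E) = divisor k (fE E') := by
        rw [← divisor_smul a.ne_zero (fE E), h3, divisor_smul a'.ne_zero]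
      have h5 : nd E.1 = nd E'.1 := by rw [hfE E, hfE E', h2, h4]
      have h6 : E = E' := Subtype.ext (nd_injective h5)
      subst h6
      have h7 : (a : k) = a' := smul_left_injective k (hfE0 E) h3
      rw [Units.ext h7]
    · rintro ⟨c, ⟨⟨f, hf⟩, hf0⟩⟩
      have hf0' : f ≠ 0 := fun h => hf0 (Subtype.ext h)
      have h1 := (mem_LL' hf0').mp hf
      obtain ⟨D, hD⟩ := exists_nd h1
      rw [zero_add] at hD
      have hDm : (D.sum fun v n => n * v.deg) = m := by
        have h2 := ddeg_nd D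
        rw [← hD, ddeg_add, ddeg_divisor, hdm, zero_add] at h2
        exact_mod_cast h2.symm
      have h3 := hfE ⟨D, hDm⟩
      dsimp only at h3
      rw [← hD] at h3
      have h4 : R c + divisor k f = R (cE ⟨D, hDm⟩) + divisor k (fE ⟨D, hDm⟩) := by
        have h5 : (R c + divisor k f) + m • D1 = (R (cE ⟨D, hDm⟩) + divisor k (fE ⟨D, hDm⟩)) + m • D1 := by
          calc (R c + divisor k f) + m • D1 = divisor k f + (R c + m • D1) := by abel
            _ = R (cE ⟨D, hDm⟩) + m • D1 + divisor k (fE ⟨D, hDm⟩) := h3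
            _ = _ := by abel
        exact add_right_cancel h5
      have h6 : c = cE ⟨D, hDm⟩ := hRun _ _ _ _ hf0' (hfE0 _) h4
      have h7 : divisor k f = divisor k (fE ⟨D, hDm⟩) := by
        rw [← h6] at h4
        exact add_left_cancel h4
      have h8 : divisor k (f * (fE ⟨D, hDm⟩)⁻¹) = 0 := by
        rw [divisor_mul hf0' (inv_ne_zero (hfE0 _)), divisor_inv, h7]; abel
      have h9 := isAlgebraic_of_divisor (mul_ne_zero hf0' (inv_ne_zero (hfE0 ⟨D, hDm⟩))) h8
      obtain ⟨a, ha⟩ := hconst _ h9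
      have ha0 : a ≠ 0 := by
        rintro rfl
        rw [map_zero] at ha
        exact mul_ne_zero hf0' (inv_ne_zero (hfE0 ⟨D, hDm⟩)) ha.symm
      refine ⟨(⟨D, hDm⟩, Units.mk0 a ha0), ?_⟩
      apply hval
      refine Prod.ext h6.symm ?_
      show (a : k) • fE ⟨D, hDm⟩ = f
      rw [Algebra.smul_def, ha, inv_mul_cancel_right₀ (hfE0 _)]
  have hcard2 := Nat.card_congr (Equiv.ofBijective Φ hΦ)
  rw [hcard1, Nat.card_prod, Nat.card_units] at hcard2
  exact hcard2

end exact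

section num

open Pool.Agent.H525R3.FFp

theorem exists_num_expl (k F : Type) [Field k] [Finite k] [Field F] [Algebra k F] [FF.IsFF k F]
    (hconst : ∀ a : F, IsAlgebraic k a → a ∈ (algebraMap k F).range) (γ : ℤ) (m0 : ℕ) (hγ0 : γ ≤ m0)
    (hN0 : ∀ D : FF.Place k F →₀ ℤ, (m0 : ℤ) ≤ ddeg D → ell D = ddeg D - γ) :
    ∃ P : Polynomial ℤ, IsZetaNum k F P ∧ P.natDegree ≤ m0 + 1 := by
  have hex := exact_count_expl k F hconst γ m0 hγ0 hN0
  have hq : 2 ≤ Nat.card k := by
    have := Finite.one_lt_card (α := k)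
    omega
  set q : ℤ := (Nat.card k : ℤ) with hqdef
  set B : PowerSeries ℤ := PowerSeries.mk (fun m => (H387R3.ZT.bnum k F m : ℤ)) with hB
  have hb : ∀ m, m0 ≤ m → ((H387R3.ZT.bnum k F m : ℤ)) * (q - 1) =
      classNumber k F * (q ^ (m - γ).toNat - 1) := by
    intro m hm
    have h1 := congrArg (Nat.cast (R := ℤ)) (hex m hm).2
    rw [Nat.cast_mul, Nat.cast_mul, Nat.cast_sub (by omega), Nat.cast_sub (Nat.one_le_pow _ _ (by omega)),
      Nat.cast_pow, Nat.cast_one] at h1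
    exact h1
  have hq1 : q - 1 ≠ 0 := by omega
  set Q : PowerSeries ℤ := (1 - C q * X) * B with hQ
  have hQc : ∀ n, m0 + 1 ≤ n → coeff n Q = classNumber k F := by
    intro n hn
    obtain ⟨i, rfl⟩ : ∃ i, n = i + 1 := ⟨n - 1, by omega⟩
    have e1 : coeff (i + 1) Q = (H387R3.ZT.bnum k F (i + 1) : ℤ) - q * H387R3.ZT.bnum k F i := by
      have : Q = B - C q * (B * X) := by rw [hQ]; ring
      rw [this, map_sub, coeff_C_mul, coeff_succ_mul_X, hB, coeff_mk, coeff_mk]
    rw [e1]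
    apply mul_right_cancel₀ hq1
    have n0 : 0 ≤ (i : ℤ) - γ := (hex i (by omega)).1
    have a0 := hb i (by omega)
    have a1 := hb (i + 1) (by omega)
    have t1 : (((i + 1 : ℕ) : ℤ) - γ).toNat = ((i : ℤ) - γ).toNat + 1 := by omega
    rw [t1] at a1
    linear_combination a1 - q * a0
  have hPc : ∀ n, m0 + 2 ≤ n → coeff n ((1 - X) * Q) = 0 := by
    intro n hn
    obtain ⟨i, rfl⟩ : ∃ i, n = i + 1 := ⟨n - 1, by omega⟩
    rw [sub_mul, one_mul, map_sub, coeff_succ_X_mul, hQc _ (by omega), hQc _ (by omega), sub_self]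
  obtain ⟨P, hP, hPd⟩ : ∃ P : Polynomial ℤ, (P : PowerSeries ℤ) = (1 - X) * Q ∧ P.natDegree ≤ m0 + 1 := by
    refine ⟨trunc (m0 + 2) ((1 - X) * Q), ?_, by
      have h := PowerSeries.natDegree_trunc_lt ((1 - X) * Q) (m0 + 1)
      exact Nat.le_of_lt_succ h⟩
    ext n
    rw [Polynomial.coeff_coe, coeff_trunc]
    split_ifs with h
    · rfl
    · exact (hPc n (by omega)).symm
  refine ⟨P, ?_, hPd⟩
  have hE := euler_mul_count (fun v : FF.Place k F => v.deg)
    (fun v => (deg_pos v).ne') (fun n => H107R3.ZT.places_finite n)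
  have hB' : B = PowerSeries.mk (fun m => (Nat.card {D : FF.Place k F →₀ ℕ //
      (D.sum fun v n => n * v.deg) = m} : ℤ)) := rfl
  rw [← hB'] at hE
  unfold IsZetaNum
  rw [hP, hQ]
  linear_combination ((1 - X) * (1 - C q * X)) * hE

end num

end Pool.Agent.R410.PW
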