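import Pool.Agent.R410.PW.Cst

/-! The places of the function field of a plane curve over a finite field and the points of the curve. -/

set_option autoImplicit false
set_option linter.all false
set_option linter.overlappingInstances false

open Module FF Pool.Agent.H525R3.FFp Pool.Agent.W132.AG Pool.Agent.W493.MX Pool.Agent.W343.BSD Polynomial
open IsDedekindDomain

namespace Pool.Agent.R410.PW

section
variable {F L : Type} [Field F] [Field L] [Algebra F L] [Algebra (RatFunc F) L] [IsScalarTower F (RatFunc F) L]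

theorem reg_cEh {w : Place F L} (hw : w.Reg (cEh F L X)) (g : F[X]) : w.Reg (cEh F L g) := by
  induction g using Polynomial.induction_on' with
  | add f g hf hg => rw [map_add]; exact w.reg_add hf hg
  | monomial n a =>
    rw [← C_mul_X_pow_eq_monomial, map_mul, map_pow, cEh_C]
    exact w.reg_mul (w.reg_const a) (reg_pow' w hw n)

/-- the embedding of the polynomials in the valuation ring -/
noncomputable def iw {w : Place F L} (hw : w.Reg (cEh F L X)) : F[X] →+* w.O :=
  (cEh F L).codRestrict w.O (reg_cEh hw)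

theorem red_cEh {w : Place F L} (hw : w.Reg (cEh F L X)) (g : F[X]) :
    w.red (cEh F L g) = aeval (w.red (cEh F L X)) g := by
  have h : w.resHom.comp (iw hw) = ((aeval (w.red (cEh F L X)) : F[X] →ₐ[F] w.RF) : F[X] →+* w.RF) := by
    apply Polynomial.ringHom_ext
    · intro c
      rw [RingHom.coe_coe, aeval_C, w.algebraMap_RF, w.red_of_reg (w.reg_const c), ]
      rw [RingHom.comp_apply]
      congr 1
      apply Subtype.ext
      exact cEh_C c
    · rw [RingHom.coe_coe, aeval_X, w.red_of_reg hw]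
      rfl
  have h1 := congrArg (fun ψ : F[X] →+* w.RF => ψ g) h
  rw [w.red_of_reg (reg_cEh hw g)]
  exact h1

theorem reg_y {f : F[X][X]} (hf : f.Monic) {y : L} (hy : (f.map (cEh F L)).eval y = 0) {w : Place F L}
    (hw : w.Reg (cEh F L X)) : w.Reg y :=
  w.reg_of_isIntegral (A := w.O) (fun a => a.2) ⟨f.map (iw hw), hf.map _, by
    rw [eval₂_map, ← hy, eval_map]
    rfl⟩

variable {k : Type} [Field k] [Algebra F k]

/-- the first coordinate of a geometric point of the curve -/
noncomputable def px (t : Σ w : Place F L, (w.RF →ₐ[F] k)) : k := t.2 (t.1.red (cEh F L X))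

/-- the geometric points of the curve with a given first coordinate -/
def Tc (L : Type) [Field L] [Algebra F L] [Algebra (RatFunc F) L] (c : k) :
    Set (Σ w : Place F L, (w.RF →ₐ[F] k)) := {t | t.1.Reg (cEh F L X) ∧ px t = c}

theorem curve_eq {f : F[X][X]} (hf : f.Monic) {y : L} (hy : (f.map (cEh F L)).eval y = 0) {w : Place F L}
    (hw : w.Reg (cEh F L X)) (φ : w.RF →ₐ[F] k) :
    evalEval (φ (w.red (cEh F L X))) (φ (w.red y)) (f.map (mapRingHom (algebraMap F k))) = 0 := by
  have hyr := reg_y hf hy hw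
  let ρ : w.O →+* k := (φ : w.RF →+* k).comp w.resHom
  have h1 : eval₂ (iw hw) (⟨y, hyr⟩ : w.O) f = 0 := by
    apply Subtype.ext
    change (algebraMap w.O L) _ = (algebraMap w.O L) 0
    rw [hom_eval₂, map_zero, ← hy, eval_map]
    rfl
  have h2 := congrArg ρ h1
  rw [hom_eval₂, map_zero] at h2
  have h3 : ρ.comp (iw hw) = (evalRingHom (φ (w.red (cEh F L X)))).comp (mapRingHom (algebraMap F k)) := by
    refine RingHom.ext fun g => ?_
    have h4 : ρ (iw hw g) = φ (w.red (cEh F L g)) := by
      rw [w.red_of_reg (reg_cEh hw g)]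
      rfl
    rw [RingHom.comp_apply, h4, red_cEh hw, ← Polynomial.aeval_algHom_apply, RingHom.comp_apply,
      coe_mapRingHom, coe_evalRingHom, aeval_def, eval₂_eq_eval_map]
  rw [h3] at h2
  rw [← eval₂_evalRingHom, eval₂_map]
  have h5 : ρ (⟨y, hyr⟩ : w.O) = φ (w.red y) := by
    rw [w.red_of_reg hyr]
    rfl
  rw [← h5]
  exact h2

end

section
variable {F L k : Type} [Field F] [Finite F] [Field L] [Algebra F L] [Algebra (RatFunc F) L]
  [IsScalarTower F (RatFunc F) L] [FiniteDimensional (RatFunc F) L] [Algebra.IsSeparable (RatFunc F) L]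
  [IsFF F L] [Field k] [Algebra F k] [Algebra F[X] L] [IsScalarTower F[X] (RatFunc F) L]
  [IsScalarTower F F[X] L]

omit [Finite F] [FiniteDimensional (RatFunc F) L] [Algebra.IsSeparable (RatFunc F) L] [IsFF F L]
  [IsScalarTower F (RatFunc F) L] [IsScalarTower F F[X] L] [Algebra F L] in
theorem algebraMap_poly (g : F[X]) : algebraMap F[X] L g = cEh F L g := by
  rw [IsScalarTower.algebraMap_apply F[X] (RatFunc F) L]
  rfl

theorem card_B (w : Place F L) (hw : w.Reg (cEh F L X)) (c : k) :
    Nat.card {φ : w.RF →ₐ[F] k // φ (w.red (cEh F L X)) = c} ≤ w.relf F[X] := by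
  classical
  by_cases hne : Nonempty {φ : w.RF →ₐ[F] k // φ (w.red (cEh F L X)) = c}
  swap
  · rw [not_nonempty_iff] at hne
    rw [Nat.card_of_isEmpty]
    exact Nat.zero_le _
  obtain ⟨φ0, hφ0⟩ := hne
  let F1 := Subfield.closure (Set.range fun a : F[X] => w.red (algebraMap F[X] L a))
  letI : Algebra F1 k := ((φ0 : w.RF →+* k).comp F1.subtype).toAlgebra
  have hfinRF : Finite w.RF := Module.finite_of_finite F
  have hagree : ∀ φ : w.RF →ₐ[F] k, φ (w.red (cEh F L X)) = c → ∀ z ∈ F1, φ z = φ0 z := by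
    intro φ hφ z hz
    induction hz using Subfield.closure_induction with
    | mem z hz =>
      obtain ⟨a, rfl⟩ := hz
      simp only
      rw [algebraMap_poly, red_cEh hw, ← Polynomial.aeval_algHom_apply, ← Polynomial.aeval_algHom_apply, hφ, hφ0]
    | one => rw [map_one, map_one]
    | add a b _ _ ha hb => rw [map_add, map_add, ha, hb]
    | neg a _ ha => rw [map_neg, map_neg, ha]
    | inv a _ ha => rw [map_inv₀, map_inv₀, ha]
    | mul a b _ _ ha hb => rw [map_mul, map_mul, ha, hb]
  let g : {φ : w.RF →ₐ[F] k // φ (w.red (cEh F L X)) = c} → (w.RF →ₐ[F1] k) := fun φ =>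
    { (φ.1 : w.RF →+* k) with commutes' := fun z => hagree φ.1 φ.2 z.1 z.2 }
  have hg : Function.Injective g := by
    intro φ φ' h
    apply Subtype.ext
    apply AlgHom.ext
    intro z
    exact DFunLike.congr_fun h z
  haveI : Module.Finite F1 w.RF := Module.Finite.of_finite
  have h1 : Nat.card (w.RF →ₐ[F1] k) ≤ finrank F1 w.RF := card_algHom_le_finrank F1 w.RF k
  haveI : Finite (w.RF →ₐ[F1] k) := Finite.algHom F1 w.RF k
  exact (Nat.card_le_card_of_injective g hg).trans h1

theorem Tc_le [Algebra.IsAlgebraic F k] (c : k) :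
    (Tc (F := F) L c).Finite ∧ (Tc (F := F) L c).ncard ≤ finrank (RatFunc F) L := by
  classical
  set π := minpoly F c with hπdef
  have hint : IsIntegral F c := (Algebra.IsAlgebraic.isAlgebraic c).isIntegral
  have hπ0 : π ≠ 0 := minpoly.ne_zero hint
  have hmax : (Ideal.span {π}).IsMaximal := PrincipalIdealRing.isMaximal_of_irreducible (minpoly.irreducible hint)
  obtain ⟨S, hS1, hS2, hS3⟩ := fundamental (k := F) (A := F[X]) (L := L) (RatFunc F) π hπ0 hmax
  have hfin : ∀ w : Place F L, Finite (w.RF →ₐ[F] k) := fun w => Finite.algHom F w.RF k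
  let B : ∀ w : Place F L, Finset (w.RF →ₐ[F] k) := fun w =>
    (Set.toFinite {φ : w.RF →ₐ[F] k | φ (w.red (cEh F L X)) = c}).toFinset
  have hsub : Tc (F := F) L c ⊆ ↑(S.sigma B) := by
    rintro ⟨w, φ⟩ ⟨h1, h2⟩
    rw [Finset.mem_coe, Finset.mem_sigma]
    refine ⟨(hS1 w).2 ⟨fun a => by rw [algebraMap_poly]; exact reg_cEh h1 a, ?_⟩, by
      rw [Set.Finite.mem_toFinset]; exact h2⟩
    rw [algebraMap_poly]
    have h3 : φ (w.red (cEh F L π)) = 0 := by
      rw [red_cEh h1, ← Polynomial.aeval_algHom_apply]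
      have : φ (w.red (cEh F L X)) = c := h2
      rw [this, hπdef, minpoly.aeval]
    have h4 : w.red (cEh F L π) = 0 := (map_eq_zero φ).1 h3
    rw [w.red_eq_zero_iff (reg_cEh h1 π)] at h4
    rcases h4 with h4 | h4
    · exfalso
      apply hπ0
      apply cEh_inj (F := F) (L := L)
      rw [h4, map_zero]
    · exact h4
  refine ⟨(Finset.finite_toSet _).subset hsub, ?_⟩
  refine (Set.ncard_le_ncard hsub (Finset.finite_toSet _)).trans ?_
  rw [Set.ncard_coe_finset, Finset.card_sigma, ← hS3]
  refine Finset.sum_le_sum fun w hw => ?_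
  have hw1 := (hS1 w).1 hw
  have hwX : w.Reg (cEh F L X) := by
    have := hw1.1 X
    rwa [algebraMap_poly] at this
  have h1 : (B w).card ≤ w.relf F[X] := by
    have := card_B w hwX c
    rwa [← Set.coe_setOf, Nat.card_coe_set_eq, Set.ncard_eq_toFinset_card _ (Set.toFinite _)] at this
  have h2 : 1 ≤ (w.ord (algebraMap F[X] L π)).toNat := by
    have := hw1.2
    omega
  calc (B w).card ≤ 1 * w.relf F[X] := by rw [one_mul]; exact h1
    _ ≤ _ := Nat.mul_le_mul_right _ h2

end

end Pool.Agent.R410.PW
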