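import Pool.Agent.R410.PW.Pts

/-! Every geometric point of a plane curve over a finite field comes from a place. -/

set_option autoImplicit false
set_option linter.all false
set_option linter.overlappingInstances false

open Module FF Pool.Agent.H525R3.FFp Pool.Agent.W132.AG Pool.Agent.W493.MX Pool.Agent.W343.BSD Polynomial
open IsDedekindDomain

namespace Pool.Agent.R410.PW

section
variable {F L k : Type} [Field F] [Finite F] [Field L] [Algebra F L] [Algebra (RatFunc F) L]
  [IsScalarTower F (RatFunc F) L] [FiniteDimensional (RatFunc F) L] [Algebra.IsSeparable (RatFunc F) L]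
  [IsFF F L] [Field k] [IsAlgClosed k] [Algebra F k] [Algebra.IsAlgebraic F k] [Algebra F[X] L]
  [IsScalarTower F[X] (RatFunc F) L] [IsScalarTower F F[X] L]

theorem exists_point {f : F[X][X]} (hf : f.Monic) {y : L} (hy : (f.map (cEh F L)).eval y = 0)
    (hmin : minpoly (RatFunc F) y = f.map (algebraMap F[X] (RatFunc F))) (c b : k)
    (h : evalEval c b (f.map (mapRingHom (algebraMap F k))) = 0) :
    ∃ t : Σ w : Place F L, (w.RF →ₐ[F] k), t ∈ Tc (F := F) L c ∧ t.2 (t.1.red y) = b := by
  classical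
  let B := integralClosure F[X] L
  have : IsDedekindDomain B := integralClosure.isDedekindDomain F[X] (RatFunc F) L
  have : IsFractionRing B L := integralClosure.isFractionRing_of_finite_extension (RatFunc F) L
  have hsc : IsScalarTower F B L := by
    refine IsScalarTower.of_algebraMap_eq fun c => ?_
    rw [IsScalarTower.algebraMap_apply F F[X] B, ← IsScalarTower.algebraMap_apply F[X] B L,
      ← IsScalarTower.algebraMap_apply F F[X] L]
  have hyint : IsIntegral F[X] y := ⟨f, hf, by
    rw [← hy, eval_map]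
    congr 1
    exact RingHom.ext fun g => algebraMap_poly g⟩
  let yB : B := ⟨y, hyint⟩
  have hyB : eval₂ (algebraMap F[X] B) yB f = 0 := by
    apply Subtype.ext
    change (algebraMap B L) _ = (algebraMap B L) 0
    rw [hom_eval₂, map_zero, ← hy, eval_map, ← IsScalarTower.algebraMap_eq]
    congr 1
    exact RingHom.ext fun g => algebraMap_poly g
  let R := AdjoinRoot f
  let j : R →+* B := AdjoinRoot.lift (algebraMap F[X] B) yB hyB
  have hθ : eval₂ ((evalRingHom c).comp (mapRingHom (algebraMap F k))) b f = 0 := by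
    rw [← eval₂_map, eval₂_evalRingHom]
    exact h
  let θ : R →+* k := AdjoinRoot.lift ((evalRingHom c).comp (mapRingHom (algebraMap F k))) b hθ
  letI : Algebra R B := j.toAlgebra
  have hjof : ∀ g : F[X], j (AdjoinRoot.of f g) = algebraMap F[X] B g := fun g => AdjoinRoot.lift_of hyB
  have hjroot : j (AdjoinRoot.root f) = yB := AdjoinRoot.lift_root hyB
  have hθof : ∀ g : F[X], θ (AdjoinRoot.of f g) = (g.map (algebraMap F k)).eval c := fun g => by
    have := AdjoinRoot.lift_of hθ (x := g)
    exact this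
  have hθroot : θ (AdjoinRoot.root f) = b := AdjoinRoot.lift_root hθ
  haveI : IsScalarTower F[X] R B := IsScalarTower.of_algebraMap_eq fun g => (hjof g).symm
  haveI : Algebra.IsIntegral F[X] B := integralClosure.AlgebraIsIntegral
  haveI : Algebra.IsIntegral R B := ⟨fun z => IsIntegral.tower_top (Algebra.IsIntegral.isIntegral (R := F[X]) z)⟩
  have hjinj : Function.Injective j := by
    rw [injective_iff_map_eq_zero]
    intro z hz
    obtain ⟨p, rfl⟩ := AdjoinRoot.mk_surjective z
    rw [AdjoinRoot.mk_eq_zero]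
    have h1 : eval₂ (cEh F L) y p = 0 := by
      have h2 := congrArg (algebraMap B L) hz
      rw [map_zero] at h2
      have h3 : j (AdjoinRoot.mk f p) = eval₂ (algebraMap F[X] B) yB p := AdjoinRoot.lift_mk hyB p
      rw [h3, hom_eval₂, ← IsScalarTower.algebraMap_eq] at h2
      rw [← h2]
      congr 1
      exact RingHom.ext fun g => (algebraMap_poly g).symm
    have h2 : minpoly (RatFunc F) y ∣ p.map (algebraMap F[X] (RatFunc F)) := by
      apply minpoly.dvd
      rw [aeval_def, eval₂_map]
      exact h1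
    rw [hmin] at h2
    exact (Polynomial.map_dvd_map _ (IsFractionRing.injective F[X] (RatFunc F)) hf).1 h2
  haveI : (RingHom.ker θ).IsPrime := RingHom.ker_isPrime θ
  obtain ⟨Q, hQ, hQc⟩ := Ideal.exists_ideal_over_prime_of_isIntegral_of_isDomain (R := R) (S := B) (RingHom.ker θ) (by
    have : RingHom.ker (algebraMap R B) = ⊥ := (RingHom.injective_iff_ker_eq_bot _).1 hjinj
    rw [this]
    exact bot_le)
  have hint : IsIntegral F c := (Algebra.IsAlgebraic.isAlgebraic c).isIntegral
  have hQ0 : Q ≠ ⊥ := by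
    intro h0
    have h1 : AdjoinRoot.of f (minpoly F c) ∈ RingHom.ker θ := by
      rw [RingHom.mem_ker, hθof, ← eval₂_eq_eval_map, ← aeval_def, minpoly.aeval]
    rw [← hQc, Ideal.mem_comap, h0, Ideal.mem_bot] at h1
    have h2 : j (AdjoinRoot.of f (minpoly F c)) = 0 := h1
    rw [hjof] at h2
    have h3 := congrArg (algebraMap B L) h2
    rw [← IsScalarTower.algebraMap_apply, map_zero, algebraMap_poly] at h3
    apply minpoly.ne_zero hint
    apply cEh_inj (F := F) (L := L)
    rw [h3, map_zero]
  let P : HeightOneSpectrum B := ⟨Q, hQ, hQ0⟩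
  let w : Place F L := placeOf P
  let φ0 : B →+* w.RF := w.redHom (algebraMap B L) (placeOf_reg P)
  have hφs : Function.Surjective φ0 := placeOf_redHom_surjective (k := F) (L := L) P
  have hker : ∀ z, φ0 z = 0 ↔ z ∈ Q := placeOf_red_eq_zero (k := F) (L := L) P
  let j0 : B ⧸ Q →+* w.RF := Ideal.Quotient.lift Q φ0 (fun z hz => (hker z).2 hz)
  have hj0 : Function.Bijective j0 := by
    constructor
    · rw [injective_iff_map_eq_zero]
      intro z hz
      obtain ⟨z, rfl⟩ := Ideal.Quotient.mk_surjective z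
      rw [Ideal.Quotient.eq_zero_iff_mem, ← hker]
      exact hz
    · intro z
      obtain ⟨z', hz'⟩ := hφs z
      exact ⟨Ideal.Quotient.mk _ z', hz'⟩
  let ej := RingEquiv.ofBijective j0 hj0
  -- the extension of the embedding of the residue field
  let κ := R ⧸ RingHom.ker θ
  haveI : IsDomain κ := Ideal.Quotient.isDomain _
  letI : Algebra κ (B ⧸ Q) := (Ideal.quotientMap Q j (by rw [← hQc]; exact le_rfl)).toAlgebra
  letI : Algebra κ k := (RingHom.kerLift θ).toAlgebra
  have hκk : Function.Injective (algebraMap κ k) := RingHom.kerLift_injective θ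
  haveI : Q.IsPrime := hQ
  haveI : IsDomain (B ⧸ Q) := Ideal.Quotient.isDomain _
  have hκB : ∀ z : R, algebraMap κ (B ⧸ Q) (Ideal.Quotient.mk _ z) = Ideal.Quotient.mk Q (j z) := fun z =>
    Ideal.quotientMap_mk
  have hinjB : Function.Injective (algebraMap κ (B ⧸ Q)) := by
    rw [injective_iff_map_eq_zero]
    intro z hz
    obtain ⟨z, rfl⟩ := Ideal.Quotient.mk_surjective z
    rw [hκB, Ideal.Quotient.eq_zero_iff_mem] at hz
    rw [Ideal.Quotient.eq_zero_iff_mem, ← hQc]
    exact hz
  haveI : Module.IsTorsionFree κ (B ⧸ Q) := Module.isTorsionFree_iff_algebraMap_injective.2 hinjB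
  haveI : Module.IsTorsionFree κ k := Module.isTorsionFree_iff_algebraMap_injective.2 hκk
  haveI : Algebra.IsIntegral κ (B ⧸ Q) := ⟨fun z => by
    obtain ⟨z, rfl⟩ := Ideal.Quotient.mk_surjective z
    obtain ⟨p, hp, hpz⟩ := Algebra.IsIntegral.isIntegral (R := R) z
    refine ⟨p.map (Ideal.Quotient.mk _), hp.map _, ?_⟩
    rw [eval₂_map]
    have h1 : (algebraMap κ (B ⧸ Q)).comp (Ideal.Quotient.mk (RingHom.ker θ)) =
        (Ideal.Quotient.mk Q).comp (algebraMap R B) := RingHom.ext fun z => hκB z
    rw [h1, ← hom_eval₂, hpz, map_zero]⟩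
  haveI : Algebra.IsAlgebraic κ (B ⧸ Q) := Algebra.IsIntegral.isAlgebraic
  let ψ : B ⧸ Q →ₐ[κ] k := IsAlgClosed.lift
  have hψ : ∀ z : R, ψ (Ideal.Quotient.mk Q (j z)) = θ z := by
    intro z
    rw [← hκB, ψ.commutes]
    exact RingHom.kerLift_mk θ z
  let φ1 : w.RF →+* k := (ψ : B ⧸ Q →+* k).comp (ej.symm : w.RF →+* B ⧸ Q)
  have hφ1 : ∀ z : R, φ1 (w.red (algebraMap B L (j z))) = θ z := by
    intro z
    have h1 : ej (Ideal.Quotient.mk Q (j z)) = w.red (algebraMap B L (j z)) := rfl
    change ψ (ej.symm (w.red (algebraMap B L (j z)))) = _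
    rw [← h1, RingEquiv.symm_apply_apply, hψ]
  have hcomm : ∀ a : F, φ1 (algebraMap F w.RF a) = algebraMap F k a := by
    intro a
    have h1 : algebraMap F w.RF a = w.red (algebraMap B L (j (AdjoinRoot.of f (C a)))) := by
      rw [w.algebraMap_RF, hjof, ← IsScalarTower.algebraMap_apply, algebraMap_poly, cEh_C]
    rw [h1, hφ1, hθof, Polynomial.map_C, eval_C]
  let φ : w.RF →ₐ[F] k := { φ1 with commutes' := hcomm }
  have hφφ : ∀ z, φ z = φ1 z := fun z => rfl
  refine ⟨⟨w, φ⟩, ⟨?_, ?_⟩, ?_⟩
  · change w.Reg (cEh F L X)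
    rw [← algebraMap_poly, IsScalarTower.algebraMap_apply F[X] B L]
    exact placeOf_reg P _
  · change φ (w.red (cEh F L X)) = c
    rw [hφφ, ← algebraMap_poly, IsScalarTower.algebraMap_apply F[X] B L, ← hjof, hφ1, hθof, Polynomial.map_X, eval_X]
  · change φ (w.red y) = b
    have h1 : y = algebraMap B L (j (AdjoinRoot.root f)) := by rw [hjroot]; rfl
    rw [hφφ]
    conv_lhs => rw [h1]
    rw [hφ1, hθroot]

end

end Pool.Agent.R410.PW
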