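import Pool.Agent.R410.PW.Pts2

/-! The number of points of a plane curve over a finite field and the number of places. -/

set_option autoImplicit false
set_option linter.all false
set_option linter.overlappingInstances false

open Module FF Pool.Agent.H525R3.FFp Pool.Agent.W132.AG Pool.Agent.W493.MX Pool.Agent.W343.BSD Polynomial
open IsDedekindDomain

namespace Pool.Agent.R410.PW

section
variable {F L k : Type} [Field F] [Finite F] [Field L] [Algebra F L] [Algebra (RatFunc F) L]
  [IsScalarTower F (RatFunc F) L] [FiniteDimensional (RatFunc F) L] [Algebra.IsSeparable (RatFunc F) L]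
  [IsFF F L] [Field k] [IsAlgClosed k] [Algebra F k] [Algebra.IsAlgebraic F k] [Algebra F[X] L]
  [IsScalarTower F[X] (RatFunc F) L] [IsScalarTower F F[X] L]

/-- the reduction of an identity -/
theorem map_hAB {f A B : F[X][X]} {D : F[X]} (hAB : A * f + B * derivative f = C D) :
    A.map (mapRingHom (algebraMap F k)) * f.map (mapRingHom (algebraMap F k)) +
      B.map (mapRingHom (algebraMap F k)) * derivative (f.map (mapRingHom (algebraMap F k))) =
      C (D.map (algebraMap F k)) := by
  have h := congrArg (Polynomial.map (mapRingHom (algebraMap F k))) hAB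
  rw [Polynomial.map_add, Polynomial.map_mul, Polynomial.map_mul, Polynomial.map_C] at h
  rw [derivative_map, h, coe_mapRingHom]

theorem card_Rc {f A B : F[X][X]} {D : F[X]} (hf : f.Monic) (hAB : A * f + B * derivative f = C D)
    (c : k) (hc : aeval c D ≠ 0) :
    {b : k | evalEval c b (f.map (mapRingHom (algebraMap F k))) = 0}.ncard = f.natDegree := by
  classical
  set fk := f.map (mapRingHom (algebraMap F k)) with hfk
  have hfkm : fk.Monic := hf.map _
  have h1 : (fk.map (evalRingHom c)).Separable := sep_of_eval (map_hAB hAB) (by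
    rw [← eval₂_eq_eval_map, ← aeval_def]
    exact hc)
  have h2 : {b : k | evalEval c b fk = 0} = ↑(fk.map (evalRingHom c)).roots.toFinset := by
    ext b
    rw [Finset.mem_coe, Multiset.mem_toFinset, mem_roots (hfkm.map _).ne_zero, Set.mem_setOf_eq,
      evalEval_eq]
    rfl
  rw [h2, Set.ncard_coe_finset, Multiset.toFinset_card_of_nodup (nodup_roots h1),
    ← (IsAlgClosed.splits (fk.map (evalRingHom c))).natDegree_eq_card_roots, hfkm.natDegree_map,
    hfk, hf.natDegree_map]

theorem inj_point {f A B : F[X][X]} {D : F[X]} (hf : f.Monic) (hAB : A * f + B * derivative f = C D)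
    {y : L} (hy : (f.map (cEh F L)).eval y = 0)
    (hmin : minpoly (RatFunc F) y = f.map (algebraMap F[X] (RatFunc F)))
    (hfin : finrank (RatFunc F) L = f.natDegree) (c : k) (hc : aeval c D ≠ 0)
    {t t' : Σ w : Place F L, (w.RF →ₐ[F] k)} (ht : t ∈ Tc (F := F) L c) (ht' : t' ∈ Tc (F := F) L c)
    (h : t.2 (t.1.red y) = t'.2 (t'.1.red y)) : t = t' := by
  obtain ⟨h1, h2⟩ := Tc_le (F := F) (L := L) c
  refine Set.inj_on_of_surj_on_of_ncard_le
    (s := Tc (F := F) L c) (t := {b : k | evalEval c b (f.map (mapRingHom (algebraMap F k))) = 0})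
    (fun t _ => t.2 (t.1.red y)) ?_ ?_ ?_ ht ht' h h1
  · intro t ht
    have := curve_eq hf hy ht.1 t.2
    have h3 : t.2 (t.1.red (cEh F L X)) = c := ht.2
    rw [h3] at this
    exact this
  · intro b hb
    obtain ⟨t, ht, htb⟩ := exists_point hf hy hmin c b hb
    exact ⟨t, ht, htb⟩
  · rw [card_Rc hf hAB c hc, ← hfin]
    exact h2

/-- the residue field has `q ^ deg` elements -/
theorem card_RF' (w : Place F L) : Nat.card w.RF = Nat.card F ^ w.deg := by
  haveI : Finite w.RF := Module.finite_of_finite F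
  haveI := Fintype.ofFinite F
  haveI := Fintype.ofFinite w.RF
  rw [Nat.card_eq_fintype_card, Nat.card_eq_fintype_card]
  exact Module.card_eq_pow_finrank

theorem dvd_iff_fix (w : Place F L) (m : ℕ) :
    (∀ z : w.RF, z ^ Nat.card F ^ m = z) ↔ w.deg ∣ m := by
  classical
  haveI : Finite w.RF := Module.finite_of_finite F
  haveI := Fintype.ofFinite F
  haveI := Fintype.ofFinite w.RF
  have hcard := card_RF' w
  have hq : 1 < Nat.card F := Finite.one_lt_card
  have hd0 : 0 < w.deg := deg_pos w
  have hpow : ∀ (z : w.RF) (i : ℕ), z ^ (Nat.card F ^ w.deg) ^ i = z := by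
    intro z i
    rw [← hcard, Nat.card_eq_fintype_card]
    induction i with
    | zero => rw [pow_zero, pow_one]
    | succ i ih => rw [pow_succ, pow_mul, ih, FiniteField.pow_card]
  constructor
  · intro h
    rw [Nat.dvd_iff_mod_eq_zero]
    by_contra hr
    set r := m % w.deg with hrdef
    have hrlt : r < w.deg := Nat.mod_lt _ hd0
    have h1 : ∀ z : w.RF, z ^ Nat.card F ^ r = z := by
      intro z
      have h2 := h z
      rw [← Nat.div_add_mod m w.deg, pow_add, pow_mul, pow_mul, hpow] at h2
      exact h2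
    have h3 : 1 < Nat.card F ^ r := Nat.one_lt_pow hr hq
    have hne : (X ^ Nat.card F ^ r - X : (w.RF)[X]) ≠ 0 := FiniteField.X_pow_card_sub_X_ne_zero _ h3
    have h4 : (Finset.univ : Finset w.RF) ⊆ (X ^ Nat.card F ^ r - X : (w.RF)[X]).roots.toFinset := by
      intro x _
      rw [Multiset.mem_toFinset, mem_roots hne, IsRoot.def, eval_sub, eval_pow, eval_X, sub_eq_zero]
      exact h1 x
    have h5 := (Finset.card_le_card h4).trans ((Multiset.toFinset_card_le _).trans (card_roots' _))
    rw [Finset.card_univ, ← Nat.card_eq_fintype_card, hcard, FiniteField.X_pow_card_sub_X_natDegree_eq _ h3] at h5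
    have h6 := (Nat.pow_lt_pow_iff_right hq).2 hrlt
    omega
  · rintro ⟨i, rfl⟩ z
    rw [pow_mul]
    exact hpow z i

/-- the Frobenius of the algebraic closure -/
theorem exists_frob (F k : Type) [Field F] [Finite F] [Field k] [Algebra F k] (m : ℕ) :
    ∃ fr : k →ₐ[F] k, ∀ x, fr x = x ^ Nat.card F ^ m := by
  haveI := Fintype.ofFinite F
  refine ⟨(FiniteField.frobeniusAlgHom F k) ^ m, fun x => ?_⟩
  induction m generalizing x with
  | zero => simp
  | succ m ih =>
    rw [pow_succ, AlgHom.mul_apply, ih, FiniteField.frobeniusAlgHom_apply, ← pow_mul, Nat.card_eq_fintype_card, pow_succ, mul_comm]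

/-- the good places -/
def Gd (D : F[X]) (w : Place F L) : Prop := w.Reg (cEh F L X) ∧ aeval (w.red (cEh F L X)) D ≠ 0

theorem good_count {f A B : F[X][X]} {D : F[X]} (hf : f.Monic) (hAB : A * f + B * derivative f = C D)
    {y : L} (hy : (f.map (cEh F L)).eval y = 0)
    (hmin : minpoly (RatFunc F) y = f.map (algebraMap F[X] (RatFunc F)))
    (hfin : finrank (RatFunc F) L = f.natDegree) {m : ℕ} (hm : 1 ≤ m) (Wm : Finset (Place F L))
    (hWm : ∀ w, w ∈ Wm ↔ Gd D w ∧ w.deg ∣ m) :
    {z ∈ Pt (f.map (mapRingHom (algebraMap F k))) (Nat.card F ^ m) | aeval z.1 D ≠ 0}.ncard =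
      ∑ w ∈ Wm, w.deg := by
  classical
  haveI hfinA : ∀ w : Place F L, Finite (w.RF →ₐ[F] k) := fun w => Finite.algHom F w.RF k
  haveI : ∀ w : Place F L, Fintype (w.RF →ₐ[F] k) := fun w => Fintype.ofFinite _
  obtain ⟨fr, hfr⟩ := exists_frob F k m
  set fk := f.map (mapRingHom (algebraMap F k)) with hfk
  let S : Finset (Σ w : Place F L, (w.RF →ₐ[F] k)) := Wm.sigma (fun w => Finset.univ)
  have hScard : S.card = ∑ w ∈ Wm, w.deg := by
    rw [Finset.card_sigma]
    refine Finset.sum_congr rfl fun w _ => ?_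
    rw [Finset.card_univ, ← Nat.card_eq_fintype_card]
    exact AlgHom.natCard_of_splits F w.RF k (fun x => IsAlgClosed.splits _)
  let pt : (Σ w : Place F L, (w.RF →ₐ[F] k)) → k × k := fun t => (px t, t.2 (t.1.red y))
  have hgood : ∀ t : (Σ w : Place F L, (w.RF →ₐ[F] k)), t.1.Reg (cEh F L X) →
      aeval (px t) D = t.2 (aeval (t.1.red (cEh F L X)) D) := by
    intro t ht
    rw [← Polynomial.aeval_algHom_apply]
    rfl
  rw [← hScard, ← Finset.card_image_of_injOn (s := S) (f := pt), ← Set.ncard_coe_finset]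
  · congr 1
    ext ⟨c, b⟩
    simp only [Set.mem_setOf_eq, Finset.coe_image, Set.mem_image, Finset.mem_coe, S, Finset.mem_sigma,
      Finset.mem_univ, and_true, pt, Prod.mk.injEq]
    constructor
    · rintro ⟨⟨h1, h2, h3⟩, h4⟩
      obtain ⟨t, ht, htb⟩ := exists_point hf hy hmin c b h3
      have htc : px t = c := ht.2
      let t' : (Σ w : Place F L, (w.RF →ₐ[F] k)) := ⟨t.1, fr.comp t.2⟩
      have ht' : t' ∈ Tc (F := F) L c := by
        refine ⟨ht.1, ?_⟩
        change fr (px t) = c
        rw [htc, hfr]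
        exact h1
      have heq : t = t' := by
        refine inj_point hf hAB hy hmin hfin c h4 ht ht' ?_
        change t.2 (t.1.red y) = fr (t.2 (t.1.red y))
        rw [htb, hfr]
        exact h2.symm
      have hφ : t.2 = fr.comp t.2 := by
        rw [Sigma.ext_iff] at heq
        exact eq_of_heq heq.2
      refine ⟨t, ?_, htc, htb⟩
      rw [hWm]
      refine ⟨⟨ht.1, ?_⟩, ?_⟩
      · intro h0
        apply h4
        rw [← htc, hgood t ht.1, h0, map_zero]
      · rw [← dvd_iff_fix]
        intro z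
        apply (t.2 : t.1.RF →+* k).injective
        change t.2 _ = t.2 _
        have h5 := DFunLike.congr_fun hφ z
        rw [AlgHom.comp_apply, hfr] at h5
        rw [map_pow, ← h5]
    · rintro ⟨t, ht, rfl, rfl⟩
      rw [hWm] at ht
      obtain ⟨⟨h1, h2⟩, h3⟩ := ht
      have h4 := (dvd_iff_fix t.1 m).2 h3
      refine ⟨⟨?_, ?_, curve_eq hf hy h1 t.2⟩, ?_⟩
      · change (t.2 _) ^ _ = t.2 _
        rw [← map_pow, h4]
      · rw [← map_pow, h4]
      · rw [hgood t h1]
        exact (_root_.map_ne_zero t.2).2 h2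
  · rintro t ht t' ht' h
    simp only [S, Finset.coe_sigma, Finset.mem_coe, Finset.coe_univ] at ht ht'
    have h1 : t.1 ∈ Wm := ht.1
    have h1' : t'.1 ∈ Wm := ht'.1
    rw [hWm] at h1 h1'
    simp only [pt, Prod.mk.injEq] at h
    refine inj_point hf hAB hy hmin hfin (px t) ?_ ⟨h1.1.1, rfl⟩ ⟨h1'.1.1, h.1.symm⟩ h.2
    rw [hgood t h1.1.1]
    exact (_root_.map_ne_zero t.2).2 h1.1.2

end

end Pool.Agent.R410.PW
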