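import Pool.Agent.W493.MX.A
import Pool.Agent.W493.MX.B
import Pool.Agent.W493.MX.E
import Pool.Agent.W493.MX.G
import Pool.Agent.W493.MX.L1

/-! The points of a plane curve and the places of the splitting field over an algebraically closed
field: values of the roots at a place. -/

set_option autoImplicit false
set_option linter.all false

open Module FF Pool.Agent.H525R3.FFp Pool.Agent.W132.AG Pool.Agent.W493.MX Polynomial

namespace Pool.Agent.R410.PW

section val
variable {k E : Type} [Field k] [IsAlgClosed k] [Field E] [Algebra k E] [IsFF k E]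

theorem bij_RF (P : Place k E) : Function.Bijective (algebraMap k P.RF) :=
  ⟨(algebraMap k P.RF).injective, fun x => by
    obtain ⟨c, hc⟩ := exists_const P x
    exact ⟨c, hc.symm⟩⟩

/-- the value of a regular function at a place of a function field over an algebraically closed field -/
noncomputable def vh (P : Place k E) : P.O →+* k :=
  ((RingEquiv.ofBijective (algebraMap k P.RF) (bij_RF P)).symm : P.RF →+* k).comp P.resHom

theorem algebraMap_vh (P : Place k E) {z : E} (hz : P.Reg z) :
    algebraMap k P.RF (vh P ⟨z, hz⟩) = P.red z := by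
  rw [P.red_of_reg hz]
  exact RingEquiv.apply_symm_apply (RingEquiv.ofBijective (algebraMap k P.RF) (bij_RF P)) _

theorem vh_eq {P : Place k E} {z : E} (hz : P.Reg z) {c : k} (h : P.red z = algebraMap k P.RF c) :
    vh P ⟨z, hz⟩ = c := by
  apply (algebraMap k P.RF).injective
  rw [algebraMap_vh, h]

end val

section curve
variable {k E : Type} [Field k] [IsAlgClosed k] [Field E] [Algebra k E] [Algebra (RatFunc k) E]
  [IsScalarTower k (RatFunc k) E] [IsFF k E]

/-- the embedding of the polynomials in the valuation ring -/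
noncomputable def io (P : Place k E) {c : k} (h : 0 < P.ord (cE E (X - C c : k[X]))) : k[X] →+* P.O :=
  ((algebraMap (RatFunc k) E).comp (algebraMap k[X] (RatFunc k))).codRestrict P.O (fun g => St.reg_cE P h g)

theorem vh_io (P : Place k E) {c : k} (h : 0 < P.ord (cE E (X - C c : k[X]))) :
    (vh P).comp (io P h) = evalRingHom c := by
  refine RingHom.ext fun g => ?_
  change vh P ⟨cE E g, _⟩ = _
  exact vh_eq _ (St.red_cE P h g)

theorem evalEval_eq (f : k[X][X]) (c b : k) : evalEval c b f = (f.map (evalRingHom c)).eval b := by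
  rw [← eval₂_evalRingHom, eval_map]

variable (f : k[X][X])

/-- the roots of a plane curve in the field `E` -/
noncomputable def Rt (E : Type) [Field E] [Algebra (RatFunc k) E] : Finset E := by
  classical
  exact ((f.map (algebraMap k[X] (RatFunc k))).aroots E).toFinset

variable {f}

theorem mem_Rt (hf : f.Monic) {y : E} : y ∈ Rt f E ↔
    (f.map ((algebraMap (RatFunc k) E).comp (algebraMap k[X] (RatFunc k)))).eval y = 0 := by
  classical
  unfold Rt
  rw [Multiset.mem_toFinset, mem_aroots, ← Polynomial.map_map, eval_map, aeval_def]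
  exact ⟨fun h => h.2, fun h => ⟨(hf.map _).ne_zero, h⟩⟩

theorem prod_Rt (hf : f.Monic) (hs : (f.map (algebraMap k[X] (RatFunc k))).Separable)
    (hE : ((f.map (algebraMap k[X] (RatFunc k))).map (algebraMap (RatFunc k) E)).Splits) :
    f.map ((algebraMap (RatFunc k) E).comp (algebraMap k[X] (RatFunc k))) = ∏ y ∈ Rt f E, (X - C y) := by
  classical
  set F0 := f.map (algebraMap k[X] (RatFunc k)) with hF0
  have h1 : (F0.aroots E).Nodup := nodup_roots (hs.map)
  rw [← Polynomial.map_map, ← hF0, hE.eq_prod_roots, ((hf.map _).map _).leadingCoeff, C_1, one_mul]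
  unfold Rt
  rw [← hF0, Finset.prod_eq_multiset_prod, Multiset.toFinset_val, Multiset.dedup_eq_self.2 h1]

theorem card_Rt (hf : f.Monic) (hs : (f.map (algebraMap k[X] (RatFunc k))).Separable)
    (hE : ((f.map (algebraMap k[X] (RatFunc k))).map (algebraMap (RatFunc k) E)).Splits) :
    (Rt f E).card = f.natDegree := by
  have h := congrArg natDegree (prod_Rt hf hs hE)
  rw [natDegree_prod_of_monic _ _ (fun y _ => monic_X_sub_C y)] at h
  simp only [natDegree_X_sub_C, Finset.sum_const, smul_eq_mul, mul_one] at h
  rw [← h, hf.natDegree_map]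

theorem reg_Rt (hf : f.Monic) (P : Place k E) {c : k} (h : 0 < P.ord (cE E (X - C c : k[X]))) {y : E}
    (hy : y ∈ Rt f E) : P.Reg y := by
  rw [mem_Rt hf] at hy
  refine P.reg_of_isIntegral (A := P.O) (fun a => a.2) ⟨f.map (io P h), hf.map _, ?_⟩
  rw [eval₂_map, ← hy, eval_map]
  rfl

/-- the values of the roots -/
noncomputable def vr (hf : f.Monic) (P : Place k E) {c : k} (h : 0 < P.ord (cE E (X - C c : k[X])))
    (y : Rt f E) : k := vh P ⟨y.1, reg_Rt hf P h y.2⟩

theorem prod_vr (hf : f.Monic) (hs : (f.map (algebraMap k[X] (RatFunc k))).Separable)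
    (hE : ((f.map (algebraMap k[X] (RatFunc k))).map (algebraMap (RatFunc k) E)).Splits)
    (P : Place k E) {c : k} (h : 0 < P.ord (cE E (X - C c : k[X]))) :
    f.map (evalRingHom c) = ∏ y : Rt f E, (X - C (vr hf P h y)) := by
  have h1 : f.map (io P h) = ∏ y : Rt f E, (X - C (⟨y.1, reg_Rt hf P h y.2⟩ : P.O)) := by
    apply Polynomial.map_injective (algebraMap P.O E) (fun a b h => Subtype.ext h)
    rw [Polynomial.map_map, Polynomial.map_prod]
    have h2 : (algebraMap P.O E).comp (io P h) =
        (algebraMap (RatFunc k) E).comp (algebraMap k[X] (RatFunc k)) := rfl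
    rw [h2, prod_Rt hf hs hE, ← Finset.prod_coe_sort]
    refine Finset.prod_congr rfl fun y _ => ?_
    rw [Polynomial.map_sub, Polynomial.map_X, Polynomial.map_C]
    rfl
  rw [← vh_io P h, ← Polynomial.map_map, h1, Polynomial.map_prod]
  refine Finset.prod_congr rfl fun y _ => ?_
  rw [Polynomial.map_sub, Polynomial.map_X, Polynomial.map_C]
  rfl

theorem sep_of_eval {A B : k[X][X]} {D : k[X]} (hAB : A * f + B * derivative f = C D) {c : k}
    (hc : D.eval c ≠ 0) : (f.map (evalRingHom c)).Separable := by
  rw [Polynomial.separable_def']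
  have h := congrArg (Polynomial.map (evalRingHom c)) hAB
  rw [Polynomial.map_add, Polynomial.map_mul, Polynomial.map_mul, Polynomial.map_C, coe_evalRingHom] at h
  refine ⟨C (D.eval c)⁻¹ * A.map (evalRingHom c), C (D.eval c)⁻¹ * B.map (evalRingHom c), ?_⟩
  rw [derivative_map, mul_assoc, mul_assoc, ← mul_add, h, ← C_mul, inv_mul_cancel₀ hc, C_1]

theorem vr_inj (hf : f.Monic) (hs : (f.map (algebraMap k[X] (RatFunc k))).Separable)
    (hE : ((f.map (algebraMap k[X] (RatFunc k))).map (algebraMap (RatFunc k) E)).Splits)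
    (P : Place k E) {c : k} (h : 0 < P.ord (cE E (X - C c : k[X])))
    {A B : k[X][X]} {D : k[X]} (hAB : A * f + B * derivative f = C D) 
    (hc : D.eval c ≠ 0) : Function.Injective (vr hf P h) := by
  have h1 := sep_of_eval hAB hc
  rw [prod_vr hf hs hE P h] at h1
  exact Polynomial.separable_prod_X_sub_C_iff.1 h1

theorem sep_rat (hf : f.Monic) {A B : k[X][X]} {D : k[X]} (hAB : A * f + B * derivative f = C D) 
    (hD : D ≠ 0) : (f.map (algebraMap k[X] (RatFunc k))).Separable := by
  rw [Polynomial.separable_def']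
  have h := congrArg (Polynomial.map (algebraMap k[X] (RatFunc k))) hAB
  rw [Polynomial.map_add, Polynomial.map_mul, Polynomial.map_mul, Polynomial.map_C] at h
  have hc : algebraMap k[X] (RatFunc k) D ≠ 0 := by
    rw [map_ne_zero_iff _ (IsFractionRing.injective k[X] (RatFunc k))]
    exact hD
  refine ⟨C (algebraMap k[X] (RatFunc k) D)⁻¹ * A.map (algebraMap k[X] (RatFunc k)),
    C (algebraMap k[X] (RatFunc k) D)⁻¹ * B.map (algebraMap k[X] (RatFunc k)), ?_⟩
  rw [derivative_map, mul_assoc, mul_assoc, ← mul_add, h, ← C_mul, inv_mul_cancel₀ hc, C_1]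

end curve

end Pool.Agent.R410.PW
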